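import Mathlib
import Pool.Agent.Lib.P0c8ca5P.Red

/-!
# Reduction of the blockwise weight conjecture to reduced blocks: conditions on pairs

The condition on the defect groups is a condition `C H P` on the pairs of a group `H` and a subgroup
`P` of `H` that is inherited by the images of subgroups (`PairSec`).
-/

namespace Pool.Agent.Lib.P0c8ca5

open MonoidAlgebra

universe u v

/-- `P'` is contained in the image of `P` under a homomorphism from a subgroup of `H` onto `H'` -/
def PairSec {H' H : Type*} [Group H'] [Group H] (P' : Subgroup H') (P : Subgroup H) : Prop :=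
  ∃ (K : Subgroup H) (f : ↥K →* H'), Function.Surjective f ∧ P' ≤ (P.subgroupOf K).map f

theorem PairSec.isSection {H' H : Type*} [Group H'] [Group H] {P' : Subgroup H'}
    {P : Subgroup H} (h : PairSec P' P) : IsSection H' H := by
  obtain ⟨K, f, hf, -⟩ := h
  exact ⟨K, f, hf⟩

theorem PairSec.of_hom {H' H : Type*} [Group H'] [Group H] {P' : Subgroup H'} {P : Subgroup H}
    (f : H →* H') (hf : Function.Surjective f) (h : P' ≤ P.map f) : PairSec P' P := by
  refine ⟨⊤, f.comp (Subgroup.subtype ⊤), ?_, ?_⟩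
  · intro x
    obtain ⟨y, rfl⟩ := hf x
    exact ⟨⟨y, Subgroup.mem_top y⟩, rfl⟩
  · intro x hx
    obtain ⟨y, hy, rfl⟩ := h hx
    exact ⟨⟨y, Subgroup.mem_top y⟩, Subgroup.mem_subgroupOf.2 hy, rfl⟩

theorem PairSec.of_le {H : Type*} [Group H] {P' P : Subgroup H} (h : P' ≤ P) : PairSec P' P :=
  PairSec.of_hom (MonoidHom.id H) Function.surjective_id (by rwa [Subgroup.map_id])

theorem PairSec.refl {H : Type*} [Group H] (P : Subgroup H) : PairSec P P := PairSec.of_le le_rfl

theorem PairSec.of_subgroup {H : Type*} [Group H] {K : Subgroup H} (P : Subgroup ↥K) :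
    PairSec P (P.map K.subtype) := by
  refine ⟨K, MonoidHom.id K, Function.surjective_id, ?_⟩
  intro x hx
  exact ⟨x, Subgroup.mem_subgroupOf.2 ⟨x, hx, rfl⟩, rfl⟩

theorem PairSec.trans {G₁ G₂ G₃ : Type*} [Group G₁] [Group G₂] [Group G₃]
    {P₁ : Subgroup G₁} {P₂ : Subgroup G₂} {P₃ : Subgroup G₃}
    (h : PairSec P₁ P₂) (h' : PairSec P₂ P₃) : PairSec P₁ P₃ := by
  obtain ⟨K, f, hf, hP⟩ := h
  obtain ⟨K', f', hf', hP'⟩ := h'
  let L : Subgroup K' := K.comap f'
  let g : L →* K := (f'.comp L.subtype).codRestrict K (fun x => x.2)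
  let E : L ≃* L.map K'.subtype := L.equivMapOfInjective _ (Subgroup.subtype_injective _)
  refine ⟨L.map K'.subtype, f.comp (g.comp E.symm.toMonoidHom), ?_, ?_⟩
  · intro x
    obtain ⟨y, rfl⟩ := hf x
    obtain ⟨z, hz⟩ := hf' y
    refine ⟨E ⟨z, by change f' z ∈ K; rw [hz]; exact y.2⟩, ?_⟩
    change f (g (E.symm (E _))) = f y
    rw [MulEquiv.symm_apply_apply]
    congr 1
    exact Subtype.ext hz
  · intro x hx
    obtain ⟨y, hy, rfl⟩ := hP hx
    have hy' : (y : G₂) ∈ P₂ := Subgroup.mem_subgroupOf.1 hy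
    obtain ⟨z, hz, hzy⟩ := hP' hy'
    have hzL : z ∈ L := by
      change f' z ∈ K
      rw [hzy]
      exact y.2
    refine ⟨E ⟨z, hzL⟩, ?_, ?_⟩
    · change ((E ⟨z, hzL⟩ : ↥(L.map K'.subtype)) : G₃) ∈ P₃
      exact Subgroup.mem_subgroupOf.1 hz
    · change f (g (E.symm (E ⟨z, hzL⟩))) = f y
      rw [MulEquiv.symm_apply_apply]
      congr 1
      exact Subtype.ext hzy

namespace RedAux

theorem pairSec_sec {A : Type*} [Group A] [Finite A] {K R P : Subgroup A} {P' : Subgroup ↥(sec K R)}
    (hn : K ≤ Subgroup.normalizer (R : Set A)) (hPK : P ≤ K)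
    (hP : P'.map (sec K R).subtype ≤ sec P R) : PairSec P' P := by
  let α : ↥K →* NQ R := (QuotientGroup.mk' _).comp (Subgroup.inclusion hn)
  have hα : ∀ x, α x ∈ sec K R := fun x => qm_mem_sec (hn x.2) x.2
  refine ⟨K, α.codRestrict (sec K R) hα, ?_, ?_⟩
  · rintro ⟨w, hw⟩
    obtain ⟨x, hx, hx', rfl⟩ := mem_sec.1 hw
    exact ⟨⟨x, hx⟩, rfl⟩
  · intro w hw
    obtain ⟨x, hx, hx', h1⟩ := mem_sec.1 (hP ⟨w, hw, rfl⟩)
    exact ⟨⟨x, hPK hx⟩, Subgroup.mem_subgroupOf.2 hx, Subtype.ext h1.symm⟩

end RedAux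

open RedAux

/-- the p-subgroups `P` with `Br_P(b) ≠ 0` satisfy `C` -/
def PairCond (C : ∀ (H : Type u) [Group H], Subgroup H → Prop) (p : ℕ) {k : Type v} [Field k]
    {H : Type u} [Group H] (b : MonoidAlgebra k H) : Prop :=
  ∀ P : Subgroup H, IsPGroup p P → HasBr P b → C H P

/-- the reduction of the blockwise weight conjecture to reduced blocks -/
theorem baw_of_reduced_pair {p : ℕ} [Fact p.Prime] {k : Type v} [Field k] [IsAlgClosed k] [CharP k p]
    {G₀ : Type*} [Group G₀] (C : ∀ (H : Type u) [Group H], Subgroup H → Prop)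
    (hC : ∀ (H H' : Type u) [Group H] [Group H'] (P : Subgroup H) (P' : Subgroup H'),
      PairSec P' P → C H P → C H' P')
    (hred : ∀ (H : Type u) [Group H] [Finite H], IsSection H G₀ → ∀ b : MonoidAlgebra k H,
      Reduced p b → PairCond C p b →
      (∃ P : Subgroup H, IsPGroup p P ∧ HasBr P b ∧ p < Nat.card P) → NavarroEq p ⊤ ⊤ b) :
    ∀ (n : ℕ) (H : Type u) [Group H] [Finite H], Nat.card H = n → IsSection H G₀ →
      ∀ b : MonoidAlgebra k H, IsBlock ⊤ b → PairCond C p b → NavarroEq p ⊤ ⊤ b := by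
  intro n
  induction n using Nat.strong_induction_on with
  | _ n ih =>
  intro H _ _ hcard hsec b hb hdef
  classical
  have : Fintype H := Fintype.ofFinite H
  -- subgroups and sections
  have hsub : ∀ (Y : Subgroup H) (c : MonoidAlgebra k H), Y ≠ ⊤ → IsBlock Y c →
      (∀ P : Subgroup H, P ≤ Y → IsPGroup p P → HasBr P c → C H P) → NavarroEq p Y Y c := by
    intro Y c hY hc hdc
    apply navarro_transport hc
    refine ih (Nat.card Y) ?_ Y rfl ((IsSection.of_subgroup Y).trans hsec) _ (dn_isBlock hc) ?_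
    · rw [← hcard]
      exact lt_of_le_of_ne (Subgroup.card_le_card_group Y) (fun h => hY (Subgroup.eq_top_of_card_eq Y h))
    · intro P hpP hbr
      refine hC _ _ _ _ (PairSec.of_subgroup P) (hdc _ ?_ (hpP.map _) (hasBr_up' hbr))
      rintro _ ⟨x, _, rfl⟩
      exact x.2
  -- Step A: a normal p-subgroup
  by_cases hA : ∃ R : Subgroup H, R.Normal ∧ IsPGroup p R ∧ R ≠ ⊥
  · obtain ⟨R, hRn, hpR, hRne⟩ := hA
    have hn : (⊤ : Subgroup H) ≤ Subgroup.normalizer (R : Set H) := by
      rw [Subgroup.normalizer_eq_top]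
    apply Rk.navarro_infl le_top hn hpR hb
    intro b' hb' hne'
    have : Fintype (NQ R) := Fintype.ofFinite _
    apply navarro_transport hb'
    refine ih (Nat.card ↥(sec ⊤ R)) ?_ ↥(sec ⊤ R) rfl ?_ _ (dn_isBlock hb') ?_
    · have h1 := Rk.Inf3Aux.card_secK (K := ⊤) (R := R) le_top hn
      rw [Subgroup.card_top, hcard] at h1
      have h2 : 1 < Nat.card R := by
        rw [Subgroup.one_lt_card_iff_ne_bot]
        exact hRne
      have h3 : 0 < Nat.card ↥(sec ⊤ R) := Nat.card_pos
      rw [h1]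
      exact lt_mul_of_one_lt_left h3 h2
    · exact ((isSection_sec hn).trans (IsSection.of_subgroup _)).trans hsec
    · intro P hpP hbr
      have hP' : P.map (sec ⊤ R).subtype ≤ sec ⊤ R := by
        rintro _ ⟨y, _, rfl⟩
        exact y.2
      obtain ⟨P₁, h1, h2, h3, h4, h5⟩ := hasBr_infl_sec (p := p) le_top hn hpR hb.suppIn hb.invBy
        hb.idem hb' hne' hP' (hpP.map _) (hasBr_up' hbr)
      refine hC _ _ _ _ ?_ (hdef P₁ h3 h4)
      exact pairSec_sec hn h2 (by rw [h5])
  push Not at hA
  -- Step B: a block of a normal subgroup that is not invariant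
  by_cases hB : ∃ (N : Subgroup H) (c : MonoidAlgebra k H) (g : H), N.Normal ∧ IsBlock N c ∧
      b * c ≠ 0 ∧ cj g c ≠ c
  · obtain ⟨N, c, g, hN, hc, hbc, hgc⟩ := hB
    let Y : Subgroup H :=
      { carrier := {g | cj g c = c}
        mul_mem' := by
          intro x y hx hy
          change cj (x * y) c = c
          rw [← cj_cj, hy, hx]
        one_mem' := cj_one_left c
        inv_mem' := by
          intro x hx
          change cj x⁻¹ c = c
          have h1 : cj x⁻¹ (cj x c) = cj x⁻¹ c := congrArg (cj x⁻¹) hx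
          rw [cj_cj, inv_mul_cancel, cj_one_left] at h1
          exact h1.symm }
    have hY : ∀ g, g ∈ Y ↔ cj g c = c := fun g => Iff.rfl
    have hYne : Y ≠ ⊤ := by
      intro h0
      apply hgc
      rw [← hY, h0]
      exact Subgroup.mem_top g
    apply Fr.navarro_stab hN hb hc hbc hY
    apply hsub Y _ hYne (Fr.isBlock_stab hN hb hc hbc hY)
    intro P hPY hpP hbr
    exact hdef P hpP (Fr.hasBr_stab hN hb hc hY hPY hpP hbr)
  push Not at hB
  -- Step C: a normal subgroup of `p`-power index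
  by_cases hR : ∃ (N : Subgroup H) (_ : N.Normal), IsPGroup p (H ⧸ N) ∧ N ≠ ⊤
  · obtain ⟨N, hN, hpN, hNne⟩ := hR
    obtain ⟨c, hc, hbc⟩ := exists_covered (p := p) N hb.ne_zero
    have hinv : InvBy ⊤ c := by
      rw [invBy_iff_cj]
      intro g _
      exact hB N c g hN hc hbc
    have hp : ∀ x : H, ∃ n : ℕ, x ^ p ^ n ∈ N := by
      intro x
      obtain ⟨n, hn⟩ := hpN (QuotientGroup.mk x)
      refine ⟨n, ?_⟩
      rwa [← QuotientGroup.mk_pow, QuotientGroup.eq_one_iff] at hn
    have hbc' : b = c := by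
      rcases hb.eq_or_mul_eq_zero (isBlock_up le_top hp hc hinv) with h | h
      · exact h
      · exact absurd h hbc
    have h1 : ∀ H', N ≤ H' → NavarroEq p N H' c := by
      intro H' hNH'
      apply navarro_of_baw hNH' (fun x _ => mem_norm_of_normal N x) (fun x _ => hp x) hc
        (hinv.mono le_top)
      intro σ hne hσ hσS b' hb' hbe
      apply hsub _ _ _ hb'
      · intro P hP hpP hbr
        apply hdef P hpP
        rw [hbc']
        exact hasBr_of_chain_block hNH' hc (hinv.mono le_top) hne hσ hσS hb' hbe hpP hP hbr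
      · intro h0
        apply hNne
        rw [eq_top_iff, ← h0]
        exact inf_le_left
    have key := equivariant_iff (p := p) hp hc hinv
    rw [hbc']
    apply key.2 (key.1.1 h1) ⊤ ⊤ le_top le_rfl
    rw [Subgroup.normalizer_eq_top]
  push Not at hR
  -- the unique block covered is a central idempotent above `b`
  have hcen : ∀ (N : Subgroup H) (c' : MonoidAlgebra k H), N.Normal → IsBlock N c' → b * c' ≠ 0 →
      InvBy ⊤ c' ∧ b * c' = b := by
    intro N c' hN hc' hbc'
    have hinv : InvBy (⊤ : Subgroup H) c' := by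
      rw [invBy_iff_cj]
      intro g _
      exact hB N c' g hN hc' hbc'
    have hmem : c' ∈ fixAlg k (⊤ : Subgroup H) ⊤ :=
      mem_fixAlg.2 ⟨fun _ _ => Subgroup.mem_top _, hinv⟩
    refine ⟨hinv, ?_⟩
    rw [Fr.comm_top hb.mem c']
    rcases hb.mul_eq hmem hc'.idem with h | h
    · exfalso
      apply hbc'
      rw [Fr.comm_top hb.mem c', h]
    · exact h
  -- Step K: the kernel
  let K : Subgroup H :=
    { carrier := {x | single x (1 : k) * b = b}
      mul_mem' := by
        intro x y hx hy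
        change single (x * y) (1 : k) * b = b
        have h1 : single (x * y) (1 : k) = single x 1 * single y 1 := by
          rw [single_mul_single, one_mul]
        rw [h1, mul_assoc, show single y (1 : k) * b = b from hy]
        exact hx
      one_mem' := by
        change single (1 : H) (1 : k) * b = b
        exact one_mul b
      inv_mem' := by
        intro x hx
        change single x⁻¹ (1 : k) * b = b
        have h1 : single x⁻¹ (1 : k) * (single x 1 * b) = b := by
          rw [← mul_assoc, single_mul_single, inv_mul_cancel, one_mul]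
          exact one_mul b
        rwa [show single x (1 : k) * b = b from hx] at h1 }
  have hKmem : ∀ x, x ∈ K ↔ single x (1 : k) * b = b := fun x => Iff.rfl
  by_cases hK : K ≠ ⊥
  · have hKn : K.Normal := by
      refine ⟨fun x hx g => ?_⟩
      rw [hKmem] at hx ⊢
      have h1 := congrArg (cj g) hx
      rw [cj_mul, Fr.cj_top hb.mem] at h1
      have h2 : cj g (single x (1 : k)) = single (g * x * g⁻¹) 1 := by
        rw [cj, single_mul_single, single_mul_single, one_mul, one_mul]
      rwa [h2] at h1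
    let π : H →* H ⧸ K := QuotientGroup.mk' K
    have hπ : Function.Surjective π := QuotientGroup.mk'_surjective K
    have hkerK : π.ker = K := QuotientGroup.ker_mk' K
    have hker : (Nat.card π.ker : k) ≠ 0 := by
      rw [hkerK]
      exact Kr.card_kernel_ne_zero (p := p) hb.mem hb.idem hb.ne_zero (fun x hx => hx)
    have hKT : Kr.KT π b := Kr.KT_of_ker (fun x hx => by
      have h1 : x ∈ π.ker := hx
      rw [hkerK] at h1
      exact h1)
    have : Fintype (H ⧸ K) := Fintype.ofFinite _
    apply Kr.navarro_pm hπ hker hb hKT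
    refine ih (Nat.card (H ⧸ K)) ?_ (H ⧸ K) rfl ((IsSection.of_surjective π hπ).trans hsec) _
      (Kr.isBlock_pm hπ hker hb hKT) ?_
    · have h1 : Nat.card H = Nat.card (H ⧸ K) * Nat.card K :=
        Subgroup.card_eq_card_quotient_mul_card_subgroup K
      have h2 : 1 < Nat.card K := by
        rw [Subgroup.one_lt_card_iff_ne_bot]
        exact hK
      rw [← hcard, h1]
      exact lt_mul_of_one_lt_right Nat.card_pos h2
    · intro P' hpP' hbr
      obtain ⟨P, h1, h2, h3⟩ := Kr.exists_hasBr_of_pm hπ hker hb.invBy hpP' hbr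
      refine hC _ _ _ _ ?_ (hdef P h1 h3)
      exact PairSec.of_hom π hπ (by rw [h2])
  push Not at hK
  have hfaith : ∀ x : H, single x (1 : k) * b = b → x = 1 := by
    intro x hx
    have h1 : x ∈ K := hx
    rwa [hK, Subgroup.mem_bot] at h1
  -- Step D: small defect
  by_cases hD : ∀ P : Subgroup H, IsPGroup p P → HasBr P b → Nat.card P ≤ p
  · exact Rk.base hb hD
  push Not at hD
  have hAb : ∀ N : Subgroup H, N.Normal → (∀ x ∈ N, ∀ y ∈ N, x * y = y * x) →
      N ≤ Subgroup.center H ∧ IsCyclic N := by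
    intro N hN hcomm
    obtain ⟨c, hc, hbc⟩ := exists_covered (p := p) N hb.ne_zero
    obtain ⟨hinv, hbc'⟩ := hcen N c hN hc hbc
    have hp := not_dvd_of_abelian hA hN hcomm
    exact ⟨Kr.central_of_abelian hN hcomm hp hb.mem hc hinv hbc' hfaith,
      Kr.cyclic_of_abelian hcomm hp hb.mem hc hbc' hfaith⟩
  refine hred H hsec b ⟨hb, fun P hP hpP => hA P hP hpP, fun N hN hpN => hR N hN hpN, ?_, hfaith,
    fun N hN hcomm => (hAb N hN hcomm).1, ?_⟩ hdef hD
  · intro N hN
    obtain ⟨c, hc, hbc⟩ := exists_covered (p := p) N hb.ne_zero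
    refine ⟨c, ⟨hc, hbc⟩, ?_⟩
    rintro c' ⟨hc', hbc'⟩
    rcases hc'.eq_or_mul_eq_zero hc with h | h
    · exact h
    · exfalso
      apply hbc
      have h1 : b * c' * c = b * c := by rw [(hcen N c' hN hc' hbc').2]
      rw [← h1, mul_assoc, h, mul_zero]
  · refine (hAb (Subgroup.center H) inferInstance ?_).2
    intro x hx y _
    exact ((Subgroup.mem_center_iff.1 hx) y).symm

end Pool.Agent.Lib.P0c8ca5
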