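import Mathlib
import Pool.Agent.Lib.P0c8ca5T.PairA
import Pool.Agent.Lib.P0c8ca5Q.Red2

/-!
# Reduction to the blocks with `O_p(H / N) = 1`: conditions on pairs
-/

namespace Pool.Agent.Lib.P0c8ca5

open MonoidAlgebra

universe u v

open Red2Aux

/-- the reduction of the blockwise weight conjecture to strongly reduced blocks -/
theorem baw_of_reduced2_pair {p : ℕ} [Fact p.Prime] {k : Type v} [Field k] [IsAlgClosed k] [CharP k p]
    {G₀ : Type*} [Group G₀] (C : ∀ (H : Type u) [Group H], Subgroup H → Prop)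
    (hC : ∀ (H H' : Type u) [Group H] [Group H'] (P : Subgroup H) (P' : Subgroup H'),
      PairSec P' P → C H P → C H' P')
    (hred : ∀ (H : Type u) [Group H] [Finite H], IsSection H G₀ → ∀ b : MonoidAlgebra k H,
      Reduced2 p b → PairCond C p b →
      (∃ P : Subgroup H, IsPGroup p P ∧ HasBr P b ∧ ¬ IsCyclic P) → NavarroEq p ⊤ ⊤ b) :
    ∀ (n : ℕ) (H : Type u) [Group H] [Finite H], Nat.card H = n → IsSection H G₀ →
      ∀ b : MonoidAlgebra k H, IsBlock ⊤ b → PairCond C p b → NavarroEq p ⊤ ⊤ b := by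
  intro n
  induction n using Nat.strong_induction_on with
  | _ n ih =>
  intro H _ _ hcard hsec b hb hdef
  refine baw_of_reduced_pair (p := p) (k := k) (G₀ := H) C hC ?_ n H hcard (IsSection.refl H) b hb hdef
  intro H' _ _ hsec' b' hb' hdef' _
  have hle : Nat.card H' ≤ n := by
    rw [← hcard]
    exact hsec'.card_le
  rcases lt_or_eq_of_le hle with hlt | heq
  · exact ih _ hlt H' rfl (hsec'.trans hsec) b' hb'.block hdef'
  by_cases hq : ∀ N M : Subgroup H', N.Normal → M.Normal → N ≤ M → ¬ p ∣ Nat.card N →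
      (∀ x ∈ M, ∃ n : ℕ, x ^ p ^ n ∈ N) → M = N
  · by_cases hcyc : ∀ P : Subgroup H', IsPGroup p P → HasBr P b' → IsCyclic P
    · have : Fintype H' := Fintype.ofFinite H'
      exact Cb.base_cyc H' b' hb'.block (fun P _ hP hbr => ⟨hcyc P hP hbr, trivial⟩)
    · push Not at hcyc
      exact hred H' (hsec'.trans hsec) b' ⟨hb'.block, hb'.residual, hq, hb'.prim, hb'.faithful,
        hb'.abelian, hb'.cyclic⟩ hdef' hcyc
  · push Not at hq
    obtain ⟨N, M, hN, hM, hNM, hpN, hpM, hne⟩ := hq
    have : Fintype H' := Fintype.ofFinite H'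
    apply step_quot hb' hN hM hNM hpN hpM hne
    intro Y hY c hc hbr
    apply navarro_transport hc
    refine ih (Nat.card Y) ?_ Y rfl
      (((IsSection.of_subgroup Y).trans hsec').trans hsec) _ (dn_isBlock hc) ?_
    · rw [← heq]
      exact lt_of_le_of_ne (Subgroup.card_le_card_group Y)
        (fun h => hY (Subgroup.eq_top_of_card_eq Y h))
    · intro P hpP hbrP
      refine hC _ _ _ _ (PairSec.of_subgroup P) (hdef' _ (hpP.map _) (hbr _ ?_ (hpP.map _)
        (RedAux.hasBr_up' hbrP)))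
      rintro _ ⟨x, _, rfl⟩
      exact x.2

end Pool.Agent.Lib.P0c8ca5
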