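import Mathlib
import Pool.Agent.Lib.P0c8ca5T.Pair2
import Pool.Agent.Lib.P0c8ca5S.HH

/-!
# The blockwise weight conjecture for blocks with cyclic defect modulo p-solvable normal subgroups

`CycModPs p H P`: for some p-solvable normal subgroup `S` of `H` the image of `P` in `H / S` is cyclic.
`base_ps`: the blockwise weight conjecture holds for the blocks such that all p-subgroups `P` with
`Br_P(b) ≠ 0` have this property.
-/

namespace Pool.Agent.Lib.P0c8ca5.Ps

open MonoidAlgebra

universe u v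

theorem cyc_of_ker {X Y Z : Type*} [Group X] [Group Y] [Group Z] {α : X →* Y} {β : X →* Z}
    (h : α.ker ≤ β.ker) (hc : IsCyclic ↥α.range) : IsCyclic ↥β.range := by
  obtain ⟨⟨_, g, rfl⟩, hg⟩ := hc
  refine ⟨⟨β g, g, rfl⟩, ?_⟩
  rintro ⟨_, x, rfl⟩
  obtain ⟨n, hn⟩ := hg ⟨α x, x, rfl⟩
  refine ⟨n, Subtype.ext ?_⟩
  have h1 : (α g) ^ n = α x := congrArg Subtype.val hn
  have h2 : g ^ n * x⁻¹ ∈ α.ker := by
    rw [MonoidHom.mem_ker, map_mul, map_inv, map_zpow, h1, mul_inv_cancel]
  have h3 := h h2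
  rw [MonoidHom.mem_ker, map_mul, map_inv, map_zpow, mul_inv_eq_one] at h3
  exact h3

theorem cyc_of_le {X : Type*} [Group X] {P Q : Subgroup X} (h : P ≤ Q) (hc : IsCyclic ↥Q) :
    IsCyclic ↥P :=
  isCyclic_of_injective (Subgroup.inclusion h) (Subgroup.inclusion_injective h)

theorem IsSection.of_injective {X Y : Type*} [Group X] [Group Y] (g : X →* Y)
    (hg : Function.Injective g) : IsSection X Y :=
  ⟨g.range, (MonoidHom.ofInjective hg).symm.toMonoidHom,
    (MonoidHom.ofInjective hg).symm.surjective⟩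

/-- the image of `P` modulo some p-solvable normal subgroup is cyclic -/
def CycModPs (p : ℕ) (H : Type*) [Group H] (P : Subgroup H) : Prop :=
  ∃ (S : Subgroup H) (_ : S.Normal), PSolv p ↥S ∧ IsCyclic ↥(P.map (QuotientGroup.mk' S))

theorem CycModPs.of_pairSec {p : ℕ} {H H' : Type*} [Group H] [Group H'] {P : Subgroup H}
    {P' : Subgroup H'} (hs : PairSec P' P) (h : CycModPs p H P) : CycModPs p H' P' := by
  obtain ⟨K, f, hf, hP⟩ := hs
  obtain ⟨S, hSn, hS, hc⟩ := h
  have h1 : (S.subgroupOf K).Normal := inferInstance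
  have h2 : ((S.subgroupOf K).map f).Normal := h1.map f hf
  refine ⟨(S.subgroupOf K).map f, h2, ?_, ?_⟩
  · refine hS.of_section ((IsSection.of_surjective (f.subgroupMap (S.subgroupOf K))
      (f.subgroupMap_surjective (S.subgroupOf K))).trans ?_)
    let g : ↥(S.subgroupOf K) →* ↥S :=
      { toFun := fun x => ⟨x.1.1, Subgroup.mem_subgroupOf.1 x.2⟩
        map_one' := rfl
        map_mul' := fun _ _ => rfl }
    apply IsSection.of_injective g
    intro x y hxy
    have h3 := congrArg Subtype.val hxy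
    exact Subtype.ext (Subtype.ext h3)
  · let α : ↥(P.subgroupOf K) →* H ⧸ S :=
      (QuotientGroup.mk' S).comp (K.subtype.comp (P.subgroupOf K).subtype)
    let β : ↥(P.subgroupOf K) →* H' ⧸ (S.subgroupOf K).map f :=
      (QuotientGroup.mk' ((S.subgroupOf K).map f)).comp (f.comp (P.subgroupOf K).subtype)
    have hα : IsCyclic ↥α.range := by
      refine cyc_of_le ?_ hc
      rintro _ ⟨x, rfl⟩
      exact ⟨x.1.1, Subgroup.mem_subgroupOf.1 x.2, rfl⟩
    have hk : α.ker ≤ β.ker := by
      intro x hx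
      rw [MonoidHom.mem_ker] at hx ⊢
      have h3 : (x.1.1 : H) ∈ S := (QuotientGroup.eq_one_iff (N := S) _).1 hx
      have h4 : f x.1 ∈ (S.subgroupOf K).map f := ⟨x.1, Subgroup.mem_subgroupOf.2 h3, rfl⟩
      exact (QuotientGroup.eq_one_iff (N := (S.subgroupOf K).map f) _).2 h4
    refine cyc_of_le ?_ (cyc_of_ker hk hα)
    rintro _ ⟨x, hx, rfl⟩
    obtain ⟨y, hy, rfl⟩ := hP hx
    exact ⟨⟨y, hy⟩, rfl⟩

/-- a largest normal subgroup of a normal subgroup is normal -/
theorem normal_map_of_max {H : Type*} [Group H] {S : Subgroup H} (hS : S.Normal)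
    (Pr : Subgroup ↥S → Prop) (hPr : ∀ (f : ↥S ≃* ↥S) (L : Subgroup ↥S), Pr L →
      Pr (L.map f.toMonoidHom)) {L : Subgroup ↥S} (hLn : L.Normal) (hL : Pr L)
    (hmax : ∀ L' : Subgroup ↥S, L'.Normal → Pr L' → L' ≤ L) : (L.map S.subtype).Normal := by
  refine ⟨?_⟩
  rintro _ ⟨x, hx, rfl⟩ h
  let f : ↥S ≃* ↥S :=
    { toFun := fun y => ⟨h * y.1 * h⁻¹, hS.conj_mem _ y.2 h⟩
      invFun := fun y => ⟨h⁻¹ * y.1 * h, by
        have := hS.conj_mem _ y.2 h⁻¹
        rwa [inv_inv] at this⟩
      left_inv := fun y => Subtype.ext (by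
        change h⁻¹ * (h * y.1 * h⁻¹) * h = y.1
        group)
      right_inv := fun y => Subtype.ext (by
        change h * (h⁻¹ * y.1 * h) * h⁻¹ = y.1
        group)
      map_mul' := fun y z => Subtype.ext (by
        change h * (y.1 * z.1) * h⁻¹ = h * y.1 * h⁻¹ * (h * z.1 * h⁻¹)
        group) }
  have h1 : L.map f.toMonoidHom ≤ L := hmax _ (hLn.map _ f.surjective) (hPr f L hL)
  exact ⟨f x, h1 ⟨x, hx, rfl⟩, rfl⟩

/-- a finite group without normal p-subgroups and normal p'-subgroups has no p-solvable normal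
subgroups -/
theorem eq_bot_of_cores {p : ℕ} [Fact p.Prime] {H : Type*} [Group H] [Finite H]
    (h1 : ∀ P : Subgroup H, P.Normal → IsPGroup p P → P = ⊥)
    (h2 : ∀ N : Subgroup H, N.Normal → ¬ p ∣ Nat.card N → N = ⊥)
    {S : Subgroup H} (hS : S.Normal) (hps : PSolv p ↥S) : S = ⊥ := by
  obtain ⟨P, hPn, hPp, hPmax⟩ := HHAux.exists_pcore (p := p) ↥S
  obtain ⟨N, hNn, hNp, hNmax⟩ := exists_core (p := p) ↥S
  have hP : P = ⊥ := by
    have h3 := h1 _ (normal_map_of_max hS (fun L => IsPGroup p L)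
      (fun f L hL => hL.map f.toMonoidHom) hPn hPp hPmax) (hPp.map _)
    rwa [Subgroup.map_eq_bot_iff_of_injective _ S.subtype_injective] at h3
  have hN : N = ⊥ := by
    have h3 := h2 _ (normal_map_of_max hS (fun L => ¬ p ∣ Nat.card L)
      (fun f L hL => by
        rwa [Nat.card_congr (L.equivMapOfInjective f.toMonoidHom f.injective).toEquiv.symm])
      hNn hNp hNmax) (by
        rwa [Nat.card_congr (N.equivMapOfInjective S.subtype S.subtype_injective).toEquiv.symm])
    rwa [Subgroup.map_eq_bot_iff_of_injective _ S.subtype_injective] at h3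
  obtain ⟨n, s, h0, hn, hs, hst⟩ := hps
  have key : ∀ i ≤ n, s i = ⊥ := by
    intro i
    induction i with
    | zero => exact fun _ => h0
    | succ i ih =>
      intro hi
      have h3 := ih (by omega)
      obtain ⟨-, h4⟩ := hst i (by omega)
      rw [h3] at h4
      rw [eq_bot_iff]
      rcases h4 with h4 | h4
      · rw [← hP]
        apply hPmax _ (hs (i + 1))
        intro x
        obtain ⟨m, hm⟩ := h4 x.1 x.2
        exact ⟨m, Subtype.ext (Subgroup.mem_bot.1 hm)⟩
      · rw [← hN]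
        apply hNmax _ (hs (i + 1))
        apply HHAux.not_dvd_card
        intro x
        obtain ⟨m, hm, hm'⟩ := h4 x.1 x.2
        exact ⟨m, hm, Subtype.ext (Subgroup.mem_bot.1 hm')⟩
  have h3 := key n le_rfl
  rw [hn] at h3
  rw [eq_bot_iff]
  intro x hx
  have h4 : (⟨x, hx⟩ : ↥S) ∈ (⊤ : Subgroup ↥S) := Subgroup.mem_top _
  rw [h3, Subgroup.mem_bot] at h4
  exact Subgroup.mem_bot.2 (congrArg Subtype.val h4)

/-- with `O_p(H / N) = 1` for the largest normal p'-subgroup `N`, all p-solvable normal subgroups are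
contained in `N` -/
theorem psolv_le_core {p : ℕ} [Fact p.Prime] {H : Type*} [Group H] [Finite H]
    {N : Subgroup H} (hN : N.Normal) (hpN : ¬ p ∣ Nat.card N)
    (hmax : ∀ N' : Subgroup H, N'.Normal → ¬ p ∣ Nat.card N' → N' ≤ N)
    (hquot : ∀ M : Subgroup H, M.Normal → N ≤ M → (∀ x ∈ M, ∃ n : ℕ, x ^ p ^ n ∈ N) → M = N)
    {S : Subgroup H} (hS : S.Normal) (hps : PSolv p ↥S) : S ≤ N := by
  have hp : p.Prime := Fact.out
  let π : H →* H ⧸ N := QuotientGroup.mk' N
  have hπ : Function.Surjective π := QuotientGroup.mk'_surjective N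
  have hle : ∀ M : Subgroup (H ⧸ N), N ≤ M.comap π := by
    intro M x hx
    rw [Subgroup.mem_comap]
    have h1 : π x = 1 := (QuotientGroup.eq_one_iff (N := N) x).2 hx
    rw [h1]
    exact M.one_mem
  have hbot : ∀ M : Subgroup (H ⧸ N), M.comap π ≤ N → M = ⊥ := by
    intro M hM
    rw [eq_bot_iff]
    intro z hz
    obtain ⟨g, rfl⟩ := hπ z
    have h1 : g ∈ N := hM hz
    exact Subgroup.mem_bot.2 ((QuotientGroup.eq_one_iff (N := N) g).2 h1)
  have h1 : (S.map π) = ⊥ := by
    apply eq_bot_of_cores (p := p) ?_ ?_ (hS.map π hπ)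
      (hps.of_section (IsSection.of_surjective (π.subgroupMap S) (π.subgroupMap_surjective S)))
    · intro M hM hMp
      apply hbot
      rw [hquot _ (hM.comap π) (hle M)]
      intro x hx
      obtain ⟨n, hn⟩ := hMp ⟨π x, hx⟩
      refine ⟨n, ?_⟩
      have h2 := congrArg Subtype.val hn
      change π x ^ p ^ n = 1 at h2
      rw [← map_pow] at h2
      exact (QuotientGroup.eq_one_iff (N := N) _).1 h2
    · intro M hM hMp
      apply hbot
      apply hmax _ (hM.comap π)
      apply HHAux.not_dvd_card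
      intro x
      refine ⟨Nat.card M * Nat.card N, ?_, ?_⟩
      · intro hd
        rcases hp.dvd_mul.1 hd with h | h
        · exact hMp h
        · exact hpN h
      · have h2 : (π x.1) ^ Nat.card M = 1 := by
          have h3 : (⟨π x.1, x.2⟩ : ↥M) ^ Nat.card M = 1 := pow_card_eq_one'
          exact congrArg Subtype.val h3
        rw [← map_pow] at h2
        have h3 : x.1 ^ Nat.card M ∈ N := (QuotientGroup.eq_one_iff (N := N) _).1 h2
        have h4 : (⟨x.1 ^ Nat.card M, h3⟩ : ↥N) ^ Nat.card N = 1 := pow_card_eq_one'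
        apply Subtype.ext
        have h5 := congrArg Subtype.val h4
        change (x.1 ^ Nat.card M) ^ Nat.card N = 1 at h5
        rw [← pow_mul] at h5
        exact h5
  intro x hx
  have h2 : π x ∈ S.map π := ⟨x, hx, rfl⟩
  rw [h1] at h2
  exact (QuotientGroup.eq_one_iff (N := N) x).1 (Subgroup.mem_bot.1 h2)

/-- the blockwise weight conjecture for the blocks with cyclic defect modulo p-solvable normal
subgroups -/
theorem base_ps {p : ℕ} [Fact p.Prime] {k : Type v} [Field k] [IsAlgClosed k] [CharP k p]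
    (H : Type u) [Group H] [Finite H] (b : MonoidAlgebra k H) (hb : IsBlock ⊤ b)
    (hC : ∀ P : Subgroup H, IsPGroup p P → HasBr P b → CycModPs p H P) :
    NavarroEq p ⊤ ⊤ b := by
  refine baw_of_reduced2_pair (p := p) (k := k) (G₀ := H) (fun H _ P => CycModPs p H P)
    (fun _ _ _ _ _ _ hs h => h.of_pairSec hs) ?_ (Nat.card H) H rfl (IsSection.refl H) b hb hC
  intro H _ _ _ b hb hC hnc
  exfalso
  obtain ⟨P, hP, hPb, hPc⟩ := hnc
  apply hPc
  obtain ⟨S, hSn, hS, hc⟩ := hC P hP hPb
  obtain ⟨N, hN, hpN, hmax⟩ := exists_core (p := p) H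
  have hSN : S ≤ N := psolv_le_core hN hpN hmax (fun M hM hNM hpM =>
    hb.quot N M hN hM hNM hpN hpM) hSn hS
  let α : ↥P →* H ⧸ S := (QuotientGroup.mk' S).comp P.subtype
  have hα : IsCyclic ↥α.range := by
    refine cyc_of_le ?_ hc
    rintro _ ⟨x, rfl⟩
    exact ⟨x.1, x.2, rfl⟩
  have hinj : Function.Injective α := by
    rw [injective_iff_map_eq_one]
    intro x hx
    have h1 : (x : H) ∈ S := (QuotientGroup.eq_one_iff (N := S) _).1 hx
    have h2 : (x : H) ∈ N := hSN h1
    obtain ⟨n, hn⟩ := hP x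
    have h3 : orderOf (x : H) ∣ p ^ n := by
      apply orderOf_dvd_of_pow_eq_one
      exact congrArg Subtype.val hn
    have h4 : orderOf (x : H) ∣ Nat.card N := by
      have h5 := orderOf_dvd_natCard (⟨x, h2⟩ : ↥N)
      rwa [Subgroup.orderOf_mk] at h5
    have h5 : orderOf (x : H) = 1 := by
      obtain ⟨i, -, hi⟩ := (Nat.dvd_prime_pow (Fact.out : p.Prime)).1 h3
      rcases Nat.eq_zero_or_pos i with h0 | h0
      · rw [hi, h0, pow_zero]
      · exfalso
        apply hpN
        refine dvd_trans ?_ h4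
        rw [hi]
        exact dvd_pow_self p h0.ne'
    exact Subtype.ext (orderOf_eq_one_iff.1 h5)
  have h1 : Function.Injective α.rangeRestrict := (MonoidHom.rangeRestrict_injective_iff).2 hinj
  exact isCyclic_of_injective α.rangeRestrict h1

end Pool.Agent.Lib.P0c8ca5.Ps
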