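import Mathlib
import Pool.Agent.Lib.P0c8ca5T.PsC

/-!
# Extensions of p-solvable groups
-/

namespace Pool.Agent.Lib.P0c8ca5.Ps

universe u

theorem PSolv.of_equiv {p : ℕ} {G H : Type*} [Group G] [Group H] (hG : PSolv p G) (f : G ≃* H) :
    PSolv p H :=
  hG.of_section (IsSection.of_surjective f.toMonoidHom f.surjective)

theorem PSolv.of_le {p : ℕ} {G : Type*} [Group G] {N N' : Subgroup G} (hN : PSolv p ↥N)
    (h : N' ≤ N) : PSolv p ↥N' :=
  hN.of_section (IsSection.of_injective (Subgroup.inclusion h) (Subgroup.inclusion_injective h))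

theorem psolv_of_hom {p : ℕ} {G L : Type*} [Group G] [Group L] (f : G →* L)
    (hker : (∀ x ∈ f.ker, ∃ m : ℕ, x ^ p ^ m = 1) ∨ ∀ x ∈ f.ker, ∃ m : ℕ, ¬ p ∣ m ∧ x ^ m = 1)
    (hL : PSolv p L) : PSolv p G := by
  obtain ⟨n, s, h0, hn, hs, hst⟩ := hL
  refine ⟨n + 1, fun i => match i with
    | 0 => ⊥
    | i + 1 => (s i).comap f, rfl, ?_, ?_, ?_⟩
  · change (s n).comap f = ⊤
    rw [hn, Subgroup.comap_top]
  · intro i
    match i with
    | 0 => exact (inferInstance : (⊥ : Subgroup G).Normal)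
    | i + 1 => exact (hs i).comap f
  · intro i hi
    match i with
    | 0 =>
      refine ⟨bot_le, ?_⟩
      change (∀ x ∈ (s 0).comap f, ∃ m : ℕ, x ^ p ^ m ∈ (⊥ : Subgroup G)) ∨
        ∀ x ∈ (s 0).comap f, ∃ m : ℕ, ¬ p ∣ m ∧ x ^ m ∈ (⊥ : Subgroup G)
      rw [h0]
      exact hker
    | i + 1 =>
      obtain ⟨h1, h2⟩ := hst i (by omega)
      refine ⟨Subgroup.comap_mono h1, ?_⟩
      rcases h2 with h2 | h2
      · left
        intro x hx
        obtain ⟨m, hm⟩ := h2 (f x) hx
        refine ⟨m, ?_⟩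
        change f (x ^ p ^ m) ∈ s i
        rw [map_pow]
        exact hm
      · right
        intro x hx
        obtain ⟨m, hm, hm'⟩ := h2 (f x) hx
        refine ⟨m, hm, ?_⟩
        change f (x ^ m) ∈ s i
        rw [map_pow]
        exact hm'

/-- an extension of a p-solvable group by a p-solvable group is p-solvable -/
theorem psolv_ext {p : ℕ} [Fact p.Prime] : ∀ (n : ℕ) (G : Type u) [Group G] [Finite G],
    Nat.card G = n → ∀ (N : Subgroup G) [N.Normal], PSolv p ↥N → PSolv p (G ⧸ N) →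
      PSolv p G := by
  intro n
  induction n using Nat.strong_induction_on with
  | _ n ih =>
  intro G _ _ hcard N hN hNs hQ
  by_cases hbot : N = ⊥
  · subst hbot
    exact hQ.of_equiv (QuotientGroup.quotientBot (G := G))
  -- a nontrivial characteristic p-subgroup or p'-subgroup
  have key : ∃ R : Subgroup G, R.Normal ∧ R ≤ N ∧ R ≠ ⊥ ∧
      ((∀ x ∈ R, ∃ m : ℕ, x ^ p ^ m = 1) ∨ ∀ x ∈ R, ∃ m : ℕ, ¬ p ∣ m ∧ x ^ m = 1) := by
    obtain ⟨P, hPn, hPp, hPmax⟩ := HHAux.exists_pcore (p := p) ↥N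
    obtain ⟨M, hMn, hMp, hMmax⟩ := exists_core (p := p) ↥N
    by_cases hP : P = ⊥
    · by_cases hM : M = ⊥
      · exfalso
        apply hbot
        have h1 : (⊤ : Subgroup ↥N) = ⊥ := by
          apply eq_bot_of_cores (p := p) (H := ↥N) ?_ ?_ inferInstance
            (hNs.of_equiv Subgroup.topEquiv.symm)
          · intro P' h2 h3
            rw [eq_bot_iff, ← hP]
            exact hPmax P' h2 h3
          · intro M' h2 h3
            rw [eq_bot_iff, ← hM]
            exact hMmax M' h2 h3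
        rw [eq_bot_iff]
        intro x hx
        have h2 : (⟨x, hx⟩ : ↥N) ∈ (⊤ : Subgroup ↥N) := Subgroup.mem_top _
        rw [h1, Subgroup.mem_bot] at h2
        exact Subgroup.mem_bot.2 (congrArg Subtype.val h2)
      · refine ⟨M.map N.subtype, normal_map_of_max hN (fun L => ¬ p ∣ Nat.card L)
          (fun f L hL => by
            rwa [Nat.card_congr (L.equivMapOfInjective f.toMonoidHom f.injective).toEquiv.symm])
          hMn hMp hMmax, ?_, ?_, Or.inr ?_⟩
        · rintro _ ⟨x, -, rfl⟩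
          exact x.2
        · rw [Ne, Subgroup.map_eq_bot_iff_of_injective _ N.subtype_injective]
          exact hM
        · rintro _ ⟨x, hx, rfl⟩
          refine ⟨Nat.card M, hMp, ?_⟩
          have h1 : (⟨x, hx⟩ : ↥M) ^ Nat.card M = 1 := pow_card_eq_one'
          have h2 := congrArg Subtype.val h1
          exact congrArg Subtype.val h2
    · refine ⟨P.map N.subtype, normal_map_of_max hN (fun L => IsPGroup p L)
        (fun f L hL => hL.map f.toMonoidHom) hPn hPp hPmax, ?_, ?_, Or.inl ?_⟩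
      · rintro _ ⟨x, -, rfl⟩
        exact x.2
      · rw [Ne, Subgroup.map_eq_bot_iff_of_injective _ N.subtype_injective]
        exact hP
      · rintro _ ⟨x, hx, rfl⟩
        obtain ⟨m, hm⟩ := hPp ⟨x, hx⟩
        have h2 := congrArg Subtype.val hm
        exact ⟨m, congrArg Subtype.val h2⟩
  obtain ⟨R, hR, hRN, hRne, hRp⟩ := key
  have hNn : (N.map (QuotientGroup.mk' R)).Normal :=
    hN.map (QuotientGroup.mk' R) (QuotientGroup.mk'_surjective R)
  have hlt : Nat.card (G ⧸ R) < n := by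
    rw [← hcard, Subgroup.card_eq_card_quotient_mul_card_subgroup R]
    exact lt_mul_of_one_lt_right Nat.card_pos ((Subgroup.one_lt_card_iff_ne_bot R).2 hRne)
  have h1 : PSolv p (G ⧸ R) := by
    refine ih _ hlt (G ⧸ R) rfl (N.map (QuotientGroup.mk' R)) ?_ ?_
    · exact hNs.of_section (IsSection.of_surjective ((QuotientGroup.mk' R).subgroupMap N)
        ((QuotientGroup.mk' R).subgroupMap_surjective N))
    · exact hQ.of_equiv (QuotientGroup.quotientQuotientEquivQuotient R N hRN).symm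
  refine psolv_of_hom (QuotientGroup.mk' R) ?_ h1
  rw [QuotientGroup.ker_mk']
  exact hRp

/-- the product of a p-group with a p-solvable subgroup that it normalizes -/
theorem psolv_sup {p : ℕ} [Fact p.Prime] {G : Type u} [Group G] [Finite G] {P W : Subgroup G}
    (hP : IsPGroup p P) (hW : PSolv p ↥W) (hn : P ≤ Subgroup.normalizer (W : Set G)) :
    PSolv p ↥(P ⊔ W) := by
  set T : Subgroup G := P ⊔ W with hT
  have hTn : T ≤ Subgroup.normalizer (W : Set G) := sup_le hn Subgroup.le_normalizer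
  have hWn : (W.subgroupOf T).Normal := by
    refine ⟨fun n hn' g => ?_⟩
    rw [Subgroup.mem_subgroupOf] at hn' ⊢
    exact (Subgroup.mem_normalizer_iff.1 (hTn g.2) _).1 hn'
  have hWT : W ≤ T := le_sup_right
  refine psolv_ext _ ↥T rfl (W.subgroupOf T)
    (hW.of_equiv (Subgroup.subgroupOfEquivOfLe hWT).symm) ?_
  -- the quotient is a p-group
  have hq : ∀ x : ↥T ⧸ W.subgroupOf T, ∃ m : ℕ, x ^ p ^ m = 1 := by
    intro x
    obtain ⟨⟨y, hy⟩, rfl⟩ := QuotientGroup.mk_surjective x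
    have hy' := hy
    rw [hT, sup_comm, mem_sup_norm hn] at hy'
    obtain ⟨w, hw, z, hz, rfl⟩ := hy'
    obtain ⟨m, hm⟩ := hP ⟨z, hz⟩
    refine ⟨m, ?_⟩
    have hzT : z ∈ T := (le_sup_left : P ≤ T) hz
    have h1 : (QuotientGroup.mk (⟨w * z, hy⟩ : ↥T) : ↥T ⧸ W.subgroupOf T)
        = QuotientGroup.mk (⟨z, hzT⟩ : ↥T) := by
      rw [QuotientGroup.eq_iff_div_mem, Subgroup.mem_subgroupOf]
      change w * z / z ∈ W
      rw [mul_div_cancel_right]
      exact hw
    rw [h1, ← QuotientGroup.mk_pow]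
    have h3 := congrArg Subtype.val hm
    have h2 : (⟨z, hzT⟩ : ↥T) ^ p ^ m = 1 := Subtype.ext h3
    rw [h2]
    rfl
  refine ⟨1, fun i => match i with
    | 0 => ⊥
    | _ + 1 => ⊤, rfl, rfl, ?_, ?_⟩
  · intro i
    match i with
    | 0 => exact (inferInstance : (⊥ : Subgroup (↥T ⧸ W.subgroupOf T)).Normal)
    | _ + 1 => exact (inferInstance : (⊤ : Subgroup (↥T ⧸ W.subgroupOf T)).Normal)
  · intro i hi
    have hi0 : i = 0 := by omega
    subst hi0
    refine ⟨bot_le, Or.inl ?_⟩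
    intro x _
    obtain ⟨m, hm⟩ := hq x
    exact ⟨m, Subgroup.mem_bot.2 hm⟩

end Pool.Agent.Lib.P0c8ca5.Ps
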