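import Mathlib
import Pool.Agent.Lib.P0c8ca5S.Loc
import Pool.Agent.Lib.P0c8ca5S.BrUp

/-!
# Radical subgroups suffice

`Radical p H Q`: `Q` contains all normal p-subgroups of `N_H(Q)`.  In `navarro_loc_rad` the weight
equality is needed only for the chain stabilizers of the radical subgroups `Q`.
-/

namespace Pool.Agent.Lib.P0c8ca5.Ps

open MonoidAlgebra
open Pool.Agent.Lib.P0c8ca5.Cy

universe u v

/-- `Q` contains all normal p-subgroups of its normalizer in `H` -/
def Radical (p : ℕ) {A : Type*} [Group A] (H Q : Subgroup A) : Prop :=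
  ∀ R : Subgroup A, IsPGroup p R → R ≤ H ⊓ Subgroup.normalizer (Q : Set A) →
    H ⊓ Subgroup.normalizer (Q : Set A) ≤ Subgroup.normalizer (R : Set A) → R ≤ Q

section

variable {p : ℕ} {k : Type*} [Field k] {A : Type*} [Group A]

theorem cS_sub (R : Subgroup A) (a b : MonoidAlgebra k A) : cS R (a - b) = cS R a - cS R b := by
  have h1 : a = (a - b) + b := by rw [sub_add_cancel]
  have h2 := congrArg (fun z => cS R z) h1
  change cS R a = cS R ((a - b) + b) at h2
  rw [h2, cS, cS, cS, resS_add, add_sub_cancel_right]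

theorem eq_zero_of_cS [Fact p.Prime] [CharP k p] [IsAlgClosed k] [Fintype A] {Y R : Subgroup A}
    (hRY : R ≤ Y) (hn : Y ≤ Subgroup.normalizer (R : Set A)) (hR : IsPGroup p R)
    {f : MonoidAlgebra k A} (hf : f ∈ fixAlg k Y Y) (hff : f * f = f) (h0 : cS R f = 0) :
    f = 0 := by
  by_contra hne
  obtain ⟨b, hb, hbf⟩ := exists_block_le hf hne hff
  have h1 : HasBr R b := hasBr_of_normal hRY hn hR hb
  obtain ⟨y, hy, hy0⟩ : HasBr R f :=
    hasBr_of_mul hR (hb.invBy.mono hRY) ((mem_fixAlg.1 hf).2.mono hRY) hbf h1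
  apply hy0
  have h2 := coeff_resS_of_mem f (S := (Subgroup.centralizer (R : Set A) : Set A)) hy
  rw [← h2]
  change (cS R f).coeff y = 0
  rw [h0]
  rfl

/-- an idempotent of `Z(kY)` is supported on the centralizer of a normal p-subgroup of `Y` -/
theorem cS_eq_self [Fact p.Prime] [CharP k p] [IsAlgClosed k] [Fintype A] {Y R : Subgroup A}
    (hRY : R ≤ Y) (hn : Y ≤ Subgroup.normalizer (R : Set A)) (hR : IsPGroup p R)
    {c : MonoidAlgebra k A} (hc : c ∈ fixAlg k Y Y) (hcc : c * c = c) : cS R c = c := by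
  have hinv : InvBy Y c := (mem_fixAlg.1 hc).2
  have hsupp : SuppIn Y c := (mem_fixAlg.1 hc).1
  set d := cS R c with hd
  have hdf : d ∈ fixAlg k Y Y := by
    refine mem_fixAlg.2 ⟨(resS_suppIn' hsupp).mono inf_le_left, resS_invBy ?_ hinv⟩
    intro x hx
    have h1 : cg x R = R := cg_eq_self_iff.2 (hn hx)
    rw [← cg_eq_self_iff, Blk2A.cg_centralizer, h1]
  have hRc : InvBy R c := hinv.mono hRY
  have hRd : InvBy R d := (mem_fixAlg.1 hdf).2.mono hRY
  have hdd : d * d = d := by
    rw [hd, cS, ← resS_mul hR hRc hRc, hcc]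
  have hcd : c * d = d * c := commute_of hsupp (mem_fixAlg.1 hdf).2
  have hRd' : cS R d = d := by
    rw [hd, cS_cS, sup_idem]
  have hRcd : cS R (c * d) = d := by
    rw [cS, resS_mul hR hRc hRd]
    change cS R c * cS R d = d
    rw [hRd', ← hd, hdd]
  have hcdcd : c * d * (c * d) = c * d := by
    calc c * d * (c * d) = c * (d * c) * d := by rw [mul_assoc, mul_assoc, mul_assoc]
      _ = c * (c * d) * d := by rw [hcd]
      _ = (c * c) * (d * d) := by rw [mul_assoc, mul_assoc, mul_assoc]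
      _ = c * d := by rw [hcc, hdd]
  have hccd : c * (c * d) = c * d := by rw [← mul_assoc, hcc]
  have hcdc : c * d * c = c * d := by rw [mul_assoc, ← hcd, ← mul_assoc, hcc]
  have hddc : d * (c * d) = c * d := by
    rw [← mul_assoc, ← hcd, mul_assoc, hdd]
  have hcdd : c * d * d = c * d := by rw [mul_assoc, hdd]
  have h1 : c - c * d = 0 := by
    apply eq_zero_of_cS hRY hn hR (Subalgebra.sub_mem _ hc (Subalgebra.mul_mem _ hc hdf))
    · rw [sub_mul, mul_sub, mul_sub, hcc, hccd, hcdc, hcdcd]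
      abel
    · rw [cS_sub]
      rw [hRcd, ← hd, sub_self]
  have h2 : d - c * d = 0 := by
    apply eq_zero_of_cS hRY hn hR (Subalgebra.sub_mem _ hdf (Subalgebra.mul_mem _ hc hdf))
    · rw [sub_mul, mul_sub, mul_sub, hdd, hddc, hcdd, hcdcd]
      abel
    · rw [cS_sub]
      rw [hRcd, hRd', sub_self]
  rw [sub_eq_zero] at h1 h2
  rw [h1, ← h2]

end

variable {p : ℕ} {k : Type v} [Field k]

/-- the weight equality for the chain stabilizers implies Navarro's equality for `(G, H, e)`; it is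
enough to have it for the radical subgroups -/
theorem navarro_loc_rad [Fact p.Prime] [CharP k p] [IsAlgClosed k]
    {A : Type u} [Group A] [Fintype A] {G H : Subgroup A} (hn : G.Normal) (hGH : G ≤ H)
    (hp : ∀ x : A, ∃ n : ℕ, x ^ p ^ n ∈ G) {e : MonoidAlgebra k A}
    (he : IsBlock G e) (hinv : InvBy ⊤ e)
    (hfix : ∀ Q : Subgroup A, Q ≤ H → IsPGroup p Q → G ⊔ Q = H → Radical p H Q →
      (∃ E, IsDefectGroup p ⊤ e E ∧ Q ≤ E) →
      ∀ K : Subgroup A, G ⊓ Subgroup.centralizer (Q : Set A) ≤ K →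
        K ≤ G ⊓ Subgroup.normalizer (Q : Set A) →
        ∀ c : MonoidAlgebra k A, (∀ x, c.coeff x ≠ 0 → e.coeff x ≠ 0) →
        (∀ x, c.coeff x ≠ 0 → x ∈ Subgroup.centralizer (Q : Set A)) →
        SuppIn (G ⊓ Subgroup.centralizer (Q : Set A)) c →
        InvBy (Subgroup.normalizer (Q : Set A)) c → c * c = c → WEq p K c) :
    NavarroEq p G H e := by
  classical
  have : Fintype (Subgroup A) := Fintype.ofFinite _
  have hnG : H ≤ Subgroup.normalizer (G : Set A) := fun x _ => mem_norm_of_normal G x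
  have hinvH : InvBy H e := hinv.mono le_top
  have hpH : ∀ x ∈ H, ∃ n : ℕ, x ^ p ^ n ∈ G := fun x _ => hp x
  have heH : IsBlock H e := isBlock_up' hGH hnG hpH he hinvH
  -- the properties of `cS Q e`
  have hsub : ∀ (Q : Subgroup A) (x : A), (cS Q e).coeff x ≠ 0 → e.coeff x ≠ 0 := by
    intro Q x hx h0
    apply hx
    rw [coeff_resS]
    split_ifs
    · exact h0
    · rfl
  have hcen : ∀ (Q : Subgroup A) (x : A), (cS Q e).coeff x ≠ 0 →
      x ∈ Subgroup.centralizer (Q : Set A) := by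
    intro Q x hx
    by_contra h0
    exact hx (coeff_resS_of_notMem _ h0)
  have hcC : ∀ Q : Subgroup A, SuppIn (G ⊓ Subgroup.centralizer (Q : Set A)) (cS Q e) :=
    fun Q x hx => Subgroup.mem_inf.2 ⟨he.suppIn x (hsub Q x hx), hcen Q x hx⟩
  have hcinv : ∀ Q : Subgroup A, InvBy (Subgroup.normalizer (Q : Set A)) (cS Q e) := by
    intro Q
    refine resS_invBy ?_ (hinv.mono le_top)
    intro x hx
    have h1 : cg x Q = Q := cg_eq_self_iff.2 hx
    rw [← cg_eq_self_iff, Blk2A.cg_centralizer, h1]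
  have hcc : ∀ Q : Subgroup A, IsPGroup p Q → cS Q e * cS Q e = cS Q e := by
    intro Q hQ
    rw [cS, ← resS_mul hQ (hinv.mono le_top) (hinv.mono le_top), he.idem]
  have hzero : ∀ Q : Subgroup A, IsPGroup p Q →
      (¬ ∃ E, IsDefectGroup p ⊤ e E ∧ Q ≤ E) → cS Q e = 0 := by
    intro Q hQ hE
    ext y
    by_contra hy
    exact hE (exists_defect_ge (p := p) hQ ⟨y, hcen Q y hy, hsub Q y hy⟩)
  -- all p-subgroups `Q`
  have key : ∀ (n : ℕ) (Q : Subgroup A), Nat.card A - Nat.card Q = n → Q ≤ H →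
      IsPGroup p Q → G ⊔ Q = H → ∀ K : Subgroup A,
      G ⊓ Subgroup.centralizer (Q : Set A) ≤ K →
      K ≤ G ⊓ Subgroup.normalizer (Q : Set A) → WEq p K (cS Q e) := by
    intro n
    induction n using Nat.strong_induction_on with
    | _ n ih =>
    intro Q hcard hQH hQp hGQ K hCK hKN
    by_cases hE : ∃ E, IsDefectGroup p ⊤ e E ∧ Q ≤ E
    · by_cases hrad : Radical p H Q
      · exact hfix Q hQH hQp hGQ hrad hE K hCK hKN _ (hsub Q) (hcen Q) (hcC Q) (hcinv Q)
          (hcc Q hQp)
      · unfold Radical at hrad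
        push Not at hrad
        obtain ⟨R, hRp, hRN, hNR, hRQ⟩ := hrad
        have hRQn : R ≤ Subgroup.normalizer (Q : Set A) := hRN.trans inf_le_right
        have hlt : Q < Q ⊔ R := lt_of_le_of_ne le_sup_left (fun h => hRQ (by
          rw [h]
          exact le_sup_right))
        have hcardlt : Nat.card Q < Nat.card ↥(Q ⊔ R) := by
          refine lt_of_le_of_ne (Subgroup.card_le_of_le hlt.le) (fun h => ?_)
          exact hlt.ne (Subgroup.eq_of_le_of_card_ge hlt.le h.ge)
        have hcardle : Nat.card ↥(Q ⊔ R) ≤ Nat.card A := Subgroup.card_le_card_group _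
        have hKY : G ⊓ Subgroup.normalizer (Q : Set A) ≤
            H ⊓ Subgroup.normalizer (Q : Set A) := inf_le_inf_right _ hGH
        -- `cS Q e` is supported on the centralizer of `R`
        have h1 : cS (Q ⊔ R) e = cS Q e := by
          rw [← cS_cS]
          apply cS_eq_self hRN hNR hRp ?_ (hcc Q hQp)
          refine mem_fixAlg.2 ⟨(hcC Q).mono ?_, (hcinv Q).mono inf_le_right⟩
          exact (inf_le_inf_left _ (Subgroup.centralizer_le_normalizer _)).trans hKY
        rw [← h1]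
        have hle : G ⊓ Subgroup.normalizer (Q : Set A) ≤
            Subgroup.normalizer ((Q ⊔ R : Subgroup A) : Set A) := by
          intro x hx
          have h2 : cg x Q = Q := cg_eq_self_iff.2 hx.2
          have h3 : cg x R = R := cg_eq_self_iff.2 (hNR (hKY hx))
          rw [← cg_eq_self_iff, cg_sup, h2, h3]
        apply ih (Nat.card A - Nat.card ↥(Q ⊔ R)) (by omega) (Q ⊔ R) rfl
          (sup_le hQH (hRN.trans inf_le_left)) (hQp.to_sup_of_normal_left' hRp hRQn)
        · rw [← sup_assoc, hGQ, sup_eq_left]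
          exact hRN.trans inf_le_left
        · refine le_trans (inf_le_inf_left _ (Subgroup.centralizer_le ?_)) hCK
          exact (le_sup_left : Q ≤ Q ⊔ R)
        · exact le_inf (hKN.trans inf_le_left) (hKN.trans hle)
    · rw [hzero Q hQp hE]
      exact weq_zero (p := p) _
  -- the weight equality for the chain stabilizers
  have hW : ∀ σ : Finset (Subgroup A), σ.Nonempty → IsChain (· ≤ ·) (σ : Set (Subgroup A)) →
      (∀ Q ∈ σ, Q ∈ Supp p G H) → WEq p (G ⊓ stab H σ) (cS (σ.sup id) e) := by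
    intro σ hne hσ hσS
    set Q := σ.sup id with hQdef
    have hQσ : Q ∈ σ := sup_mem_chain hne hσ
    obtain ⟨hQH, hQp, hGQ⟩ := hσS Q hQσ
    have hHn : ∀ R ∈ σ, stab H σ ≤ Subgroup.normalizer (R : Set A) := fun R hR x hx =>
      (mem_stab.1 hx).2 R hR
    have hCS : H ⊓ Subgroup.centralizer (Q : Set A) ≤ stab H σ := by
      intro x hx
      rw [mem_stab]
      refine ⟨hx.1, fun R hR => ?_⟩
      have hRQ : R ≤ Q := Finset.le_sup (f := id) hR
      exact Subgroup.centralizer_le_normalizer _ (Subgroup.centralizer_le hRQ hx.2)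
    exact key _ Q rfl hQH hQp hGQ _ (le_inf inf_le_left ((inf_le_inf_right _ hGH).trans hCS))
      (inf_le_inf_left _ (hHn Q hQσ))
  -- the conclusion
  intro T hT1 hT2
  let S : Finset (Subgroup A) := Finset.univ.filter (fun Q => Q ∈ Supp p G H)
  have hS : ∀ Q, Q ∈ S ↔ Q ∈ Supp p G H := by intro Q; simp [S]
  have h1 := inv_of_chains hGH hnG hpH he.suppIn hinvH he.idem hW S hS
  have h2 := sum_DZ_supp hGH hnG hpH he hinvH T hT1 hT2 S hS
  have hpos : 0 < Nat.card H := Nat.card_pos
  exact Nat.eq_of_mul_eq_mul_left hpos (h1.trans h2.symm)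

end Pool.Agent.Lib.P0c8ca5.Ps
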