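import Mathlib
import Pool.Agent.Lib.P0c8ca5T.PsC
import Pool.Agent.Lib.P0c8ca5C.PStep
import Pool.Agent.Lib.P0c8ca5C.SecCyc
import Pool.Agent.Lib.P0c8ca5S.LocR

/-!
# The weight equality for normal series: conditions on pairs

`Base p k C`: the condition `C H P` on pairs is inherited by `PairSec`, and the blockwise weight
conjecture holds for the blocks such that all p-subgroups `P` with `Br_P(e) ≠ 0` satisfy it.
-/

namespace Pool.Agent.Lib.P0c8ca5.Ps

open MonoidAlgebra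
open Pool.Agent.Lib.P0c8ca5.Cy

universe u v

/-- the condition `C` is inherited and implies the blockwise weight conjecture -/
structure Base (p : ℕ) (k : Type v) [Field k] (C : ∀ (H : Type u) [Group H], Subgroup H → Prop) :
    Prop where
  her : ∀ (H H' : Type u) [Group H] [Group H'] (P : Subgroup H) (P' : Subgroup H'),
    PairSec P' P → C H P → C H' P'
  base : ∀ (B : Type u) [Group B] [Finite B] (e : MonoidAlgebra k B), IsBlock (⊤ : Subgroup B) e →
    (∀ P : Subgroup B, IsPGroup p P → HasBr P e → C B P) → NavarroEq p (⊤ : Subgroup B) ⊤ e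

variable {p : ℕ} {k : Type v} [Field k] {C : ∀ (H : Type u) [Group H], Subgroup H → Prop}

theorem base_modPs [Fact p.Prime] [IsAlgClosed k] [CharP k p] :
    Base.{u, v} p k (fun H _ P => CycModPs p H P) :=
  ⟨fun _ _ _ _ _ _ hs h => h.of_pairSec hs, fun B _ _ e he h => base_ps B e he h⟩

theorem pairSec_of_injective {X Y : Type*} [Group X] [Group Y] (g : X →* Y)
    (hg : Function.Injective g) (P : Subgroup X) : PairSec P (P.map g) := by
  refine ⟨g.range, (MonoidHom.ofInjective hg).symm.toMonoidHom,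
    (MonoidHom.ofInjective hg).symm.surjective, ?_⟩
  intro x hx
  refine ⟨⟨g x, x, rfl⟩, Subgroup.mem_subgroupOf.2 ⟨x, hx, rfl⟩, ?_⟩
  exact (MonoidHom.ofInjective hg).symm_apply_apply x

theorem hasBr_map {X Y : Type*} [Group X] [Group Y] (g : X →* Y) {P : Subgroup X}
    {f : MonoidAlgebra k X} {f' : MonoidAlgebra k Y}
    (h : ∀ y, f.coeff y ≠ 0 → f'.coeff (g y) ≠ 0) (hbr : HasBr P f) : HasBr (P.map g) f' := by
  obtain ⟨y, hy, hy0⟩ := hbr
  refine ⟨g y, ?_, h y hy0⟩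
  rw [Subgroup.mem_centralizer_iff] at hy ⊢
  rintro _ ⟨x, hx, rfl⟩
  rw [← map_mul, hy x hx, map_mul]

theorem Base.sub (hB : Base.{u, v} p k C) {A : Type u} [Group A] {H : Subgroup A}
    {c : MonoidAlgebra k A} {M : Subgroup A}
    (h : ∀ P : Subgroup A, P ≤ M → IsPGroup p P → HasBr P c → C A P) :
    ∀ P : Subgroup ↥H, P ≤ M.subgroupOf H → IsPGroup p P → HasBr P (dn H c) → C ↥H P := by
  intro P hP hPp hbr
  refine hB.her _ _ _ _ (PairSec.of_subgroup P) (h _ ?_ (hPp.map _) ?_)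
  · rintro _ ⟨y, hy, rfl⟩
    exact Subgroup.mem_subgroupOf.1 (hP hy)
  · exact hasBr_map H.subtype (fun y hy => by rwa [coeff_dn] at hy) hbr

theorem weq_baseC [Fact p.Prime] [CharP k p] [IsAlgClosed k] (hB : Base.{u, v} p k C)
    {A : Type u} [Group A] [Fintype A] {K : Subgroup A}
    {c : MonoidAlgebra k A} (hc : SuppIn K c) (hci : InvBy K c) (hcc : c * c = c)
    (hst : ∀ P : Subgroup A, P ≤ K → IsPGroup p P → HasBr P c → C A P) : WEq p K c := by
  apply Cy.weq_of_blocks hc hci hcc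
  intro b hb hbc
  apply navarro_transport hb
  apply hB.base _ _ (dn_isBlock hb)
  have hmem : c ∈ fixAlg k K K := mem_fixAlg.2 ⟨hc, hci⟩
  have hcomm : c * b = b * c := commute_of hc hb.invBy
  have hmul : b * c = b := by
    rcases hb.mul_eq hmem hcc with h | h
    · rw [hcomm] at h; exact absurd h hbc
    · rw [← hcomm]; exact h
  intro P hP hbr
  refine hB.sub (M := K) (c := b) ?_ P ?_ hP hbr
  · intro P' hP'K hP' hbr'
    exact hst P' hP'K hP' (hasBr_of_mul hP' (hb.invBy.mono hP'K) (hci.mono hP'K) hmul hbr')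
  · intro x _
    exact Subgroup.mem_subgroupOf.2 x.2

theorem weq_cycC [Fact p.Prime] [CharP k p] [IsAlgClosed k] (hB : Base.{u, v} p k C)
    {A : Type u} [Group A] [Fintype A] {C₀ : Subgroup A}
    [hC₀ : C₀.Normal] {g : A} (hg : C₀ ⊔ Subgroup.zpowers g = ⊤) {f : MonoidAlgebra k A}
    (hf : SuppIn C₀ f) (hfi : InvBy ⊤ f) (hff : f * f = f)
    (hst : ∀ P : Subgroup A, P ≤ C₀ → IsPGroup p P → HasBr P f → C A P) :
    WEq p (⊤ : Subgroup A) f := by
  classical
  obtain ⟨M, hM, hCM, hp, hMC⟩ := exists_M (p := p) hg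
  have : Fintype (Subgroup A) := Fintype.ofFinite _
  have : Fintype (IrX M f) := Fintype.ofFinite _
  have : Fintype (PT p M f) := Fintype.ofFinite _
  have hfM : SuppIn M f := hf.mono hCM
  have hnM : ∀ U : Subgroup A, U ≤ Subgroup.normalizer (M : Set A) := fun U x _ =>
    mem_norm_of_normal M x
  have key : ∀ U : Subgroup A, M ≤ U →
      cnt (stX (G := M) hfi) M U = cnt (stP p M f) M U := by
    intro U hMU
    let S : Finset (Subgroup A) := Finset.univ.filter (fun Q => Q ∈ Supp p M U)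
    have hS : ∀ Q, Q ∈ S ↔ Q ∈ Supp p M U := by intro Q; simp [S]
    rw [cnt_stX (p := p) le_rfl hMU (hnM U) hp hfM hfi hff,
      cnt_stP le_rfl hMU hp hfM hfi hff S (fun Q => by rw [hS]; exact Iff.rfl)]
    apply inv_of_chains hMU (hnM U) (fun x _ => hp x) hfM (hfi.mono le_top) hff ?_ S hS
    intro σ hne hσ hσS
    set T := σ.sup id with hT
    have hTσ : T ∈ σ := sup_mem_chain hne hσ
    have hHn : ∀ Q ∈ σ, stab U σ ≤ Subgroup.normalizer (Q : Set A) := fun Q hQ x hx =>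
      (mem_stab.1 hx).2 Q hQ
    have hCS : U ⊓ Subgroup.centralizer (T : Set A) ≤ stab U σ := by
      intro x hx
      rw [mem_stab]
      refine ⟨hx.1, fun Q hQ => ?_⟩
      have hQT : Q ≤ T := Finset.le_sup (f := id) hQ
      exact Subgroup.centralizer_le_normalizer _ (Subgroup.centralizer_le hQT hx.2)
    have hctx : Ctx p U (stab U σ) T f :=
      { hHX := inf_le_left
        hS := (hσS T hTσ).2.1
        hHS := hHn T hTσ
        hCS := hCS
        supp := hfM.mono hMU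
        inv := hfi.mono le_top }
    have hsub : ∀ x, (cS T f).coeff x ≠ 0 → f.coeff x ≠ 0 := by
      intro x hx h0
      apply hx
      rw [coeff_resS]
      split_ifs
      · exact h0
      · rfl
    refine weq_baseC hB (fun x hx => Subgroup.mem_inf.2 ⟨hfM x (hsub x hx), hctx.cS_supp x hx⟩)
      (hctx.cS_inv.mono inf_le_right) (hctx.cS_idem (hσS T hTσ).1 hff) ?_
    rintro P hP hPp ⟨x, hx, hx0⟩
    exact hst P (hMC P (hP.trans inf_le_left) hPp) hPp ⟨x, hx, hsub x hx0⟩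
  have h1 := cnt_top_eq (M := M) (stX (G := M) hfi) (stP p M f) key
  let S : Finset (Subgroup A) := Finset.univ.filter (fun Q => Q ≤ ⊤ ∧ IsPGroup p Q)
  have hS : ∀ Q, Q ∈ S ↔ Q ≤ ⊤ ∧ IsPGroup p Q ∧ ⊤ ⊔ Q = ⊤ := by
    intro Q; simp [S]
  rw [cnt_stX (p := p) le_top le_rfl (by rw [Subgroup.normalizer_eq_top]) hp hfM hfi hff,
    cnt_stP le_top le_top hp hfM hfi hff S hS] at h1
  unfold WEq Fr.Ws
  rw [← card_irr_eq, h1]
  refine Finset.sum_congr ?_ (fun _ _ => rfl)
  ext Q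
  simp [S]

theorem weq_starC [Fact p.Prime] [CharP k p] [IsAlgClosed k] (hB : Base.{u, v} p k C)
    {A : Type u} [Group A] [Fintype A] {C₀ N : Subgroup A}
    [hC₀ : C₀.Normal] [hN : N.Normal] (hh : HypExt p C₀ N ⊤) {f : MonoidAlgebra k A}
    (hf : SuppIn C₀ f) (hfi : InvBy ⊤ f) (hff : f * f = f)
    (hst : ∀ P : Subgroup A, P ≤ C₀ → IsPGroup p P → HasBr P f → C A P) :
    WEq p (⊤ : Subgroup A) f := by
  classical
  apply weq_hyp hh hf hfi hff
  intro g
  set Y := C₀ ⊔ Subgroup.zpowers g with hY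
  have : Fintype ↥Y := Fintype.ofFinite _
  have hCY : C₀ ≤ Y := le_sup_left
  have hgY : g ∈ Y := (le_sup_right : _ ≤ Y) (Subgroup.mem_zpowers g)
  rw [← weq_dn (hf.mono hCY)]
  have hCn : (C₀.subgroupOf Y).Normal := inferInstance
  have hg : C₀.subgroupOf Y ⊔ Subgroup.zpowers (⟨g, hgY⟩ : ↥Y) = ⊤ := by
    rw [eq_top_iff]
    rintro ⟨x, hx⟩ -
    have hx' := hx
    rw [hY, mem_sup_norm (D := Subgroup.zpowers g) (fun y _ => mem_norm_of_normal C₀ y)] at hx
    obtain ⟨c, hc, z, hz, rfl⟩ := hx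
    obtain ⟨n, rfl⟩ := Subgroup.mem_zpowers_iff.1 hz
    have h1 : (⟨c, hCY hc⟩ : ↥Y) ∈ C₀.subgroupOf Y := Subgroup.mem_subgroupOf.2 hc
    have h2 : (⟨g, hgY⟩ : ↥Y) ^ n ∈ Subgroup.zpowers (⟨g, hgY⟩ : ↥Y) :=
      Subgroup.zpow_mem_zpowers _ n
    have h3 := Subgroup.mul_mem_sup h1 h2
    have e1 : (⟨c, hCY hc⟩ : ↥Y) * (⟨g, hgY⟩ : ↥Y) ^ n = ⟨c * g ^ n, hx'⟩ :=
      Subtype.ext (by simp)
    rw [← e1]
    exact h3
  exact weq_cycC hB hg (dn_suppIn hf) (dn_invBy (hfi.mono le_top)) (dn_idem (hf.mono hCY) hff)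
    (hB.sub hst)

/-- the condition is for the pairs `(K, P)` -/
theorem weq_starC' [Fact p.Prime] [CharP k p] [IsAlgClosed k] (hB : Base.{u, v} p k C)
    {A : Type u} [Group A] [Fintype A] {C₀ N K : Subgroup A}
    (hh : HypExt p C₀ N K) {c : MonoidAlgebra k A}
    (hc : SuppIn C₀ c) (hci : InvBy K c) (hcc : c * c = c)
    (hst : ∀ P : Subgroup ↥K, P ≤ C₀.subgroupOf K → IsPGroup p P → HasBr P (dn K c) →
      C ↥K P) : WEq p K c := by
  classical
  have : Fintype ↥K := Fintype.ofFinite _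
  have hCK : C₀ ≤ K := hh.CN.trans hh.ext.NH
  rw [← weq_dn (hc.mono hCK)]
  obtain ⟨h1, h2, h3⟩ := hh.dn
  exact weq_starC hB h1 (dn_suppIn hc) (dn_invBy hci) (dn_idem (hc.mono hCK) hcc) hst

/-- the weight equality for series with three factors; the condition is for the pairs `(H, P)` -/
theorem weq_star3C [Fact p.Prime] [CharP k p] [IsAlgClosed k] (hB : Base.{u, v} p k C)
    {A : Type u} [Group A] [Fintype A] {C₀ N H K : Subgroup A}
    (hh : Hyp3 p C₀ N H K) {c : MonoidAlgebra k A}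
    (hc : SuppIn C₀ c) (hci : InvBy K c) (hcc : c * c = c)
    (hst : ∀ P : Subgroup ↥H, P ≤ C₀.subgroupOf H → IsPGroup p P → HasBr P (dn H c) →
      C ↥H P) : WEq p K c := by
  classical
  have : Fintype ↥K := Fintype.ofFinite _
  have hCH : C₀ ≤ H := hh.hyp.CN.trans hh.hyp.ext.NH
  have hCK : C₀ ≤ K := hCH.trans hh.HK
  rw [← weq_dn (hc.mono hCK)]
  have hHn : (H.subgroupOf K).Normal := by
    refine ⟨fun n hn g => ?_⟩
    rw [Subgroup.mem_subgroupOf] at hn ⊢
    exact (Subgroup.mem_normalizer_iff.1 (hh.hH g.2) _).1 hn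
  have hcH : SuppIn (H.subgroupOf K) (dn K c) := (dn_suppIn hc).mono (by
    intro x hx
    rw [Subgroup.mem_subgroupOf] at hx ⊢
    exact hCH hx)
  apply weq_pstep (M := H.subgroupOf K) ?_ hcH (dn_invBy hci) (dn_idem (hc.mono hCK) hcc)
  · intro T hT c' hsub hcT hcTi hcc'
    have hT' := (hh.hyp.subgroupOf hh.HK).sub hT
    have hcC : SuppIn (C₀.subgroupOf K ⊓ T) c' := fun x hx =>
      Subgroup.mem_inf.2 ⟨dn_suppIn hc x (hsub x hx), hcT x hx⟩
    refine weq_starC' hB hT' hcC hcTi hcc' ?_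
    intro P hP hPp hbr
    let g : ↥T →* ↥H :=
      { toFun := fun x => ⟨x.1.1, Subgroup.mem_subgroupOf.1 (hT x.2)⟩
        map_one' := rfl
        map_mul' := fun _ _ => rfl }
    have hg : Function.Injective g := by
      intro x y hxy
      have h1 := congrArg Subtype.val hxy
      exact Subtype.ext (Subtype.ext h1)
    refine hB.her _ _ _ _ (pairSec_of_injective g hg P) (hst _ ?_ (hPp.map _) ?_)
    · rintro _ ⟨x, hx, rfl⟩
      have h1 := Subgroup.mem_subgroupOf.1 (hP hx)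
      exact Subgroup.mem_subgroupOf.2 (Subgroup.mem_subgroupOf.1 (Subgroup.mem_inf.1 h1).1)
    · refine hasBr_map g (fun y hy => ?_) hbr
      rw [coeff_dn] at hy
      have h1 := hsub _ hy
      rw [coeff_dn] at h1
      rw [coeff_dn]
      exact h1
  · rintro ⟨x, hx⟩
    obtain ⟨n, hn⟩ := hh.pgrp x hx
    exact ⟨n, Subgroup.mem_subgroupOf.2 hn⟩

end Pool.Agent.Lib.P0c8ca5.Ps
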