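import Mathlib
import Pool.Agent.Lib.P0c8ca5T.Rad
import Pool.Agent.Lib.P0c8ca5T.Stc
import Pool.Agent.Lib.P0c8ca5T.PExt

/-!
# Local conditions modulo p-solvable normal subgroups
-/

namespace Pool.Agent.Lib.P0c8ca5.Ps

open MonoidAlgebra
open Pool.Agent.Lib.P0c8ca5.Cy

universe u v

variable {p : ℕ} {k : Type v} [Field k]

/-- the image of `E` modulo some p-solvable subgroup `S`, normal in `H`, is cyclic -/
def CycPs (p : ℕ) {A : Type u} [Group A] (H E : Subgroup A) : Prop :=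
  ∃ S : Subgroup A, S ≤ H ∧ H ≤ Subgroup.normalizer (S : Set A) ∧ PSolv p ↥S ∧
    IsCyclic ↥(sec E S)

/-- The hypothesis on `Q`. -/
def LocS (p : ℕ) {A : Type u} [Group A] (G : Subgroup A) (e : MonoidAlgebra k A)
    (Q : Subgroup A) : Prop :=
  ∃ M N H : Subgroup A, Hyp3 p M N H (G ⊓ Subgroup.normalizer (Q : Set A)) ∧
    (∀ x ∈ G, x ∈ Subgroup.centralizer (Q : Set A) → ¬ p ∣ orderOf x → x ∈ M) ∧
    ∀ E, IsDefectGroup p ⊤ e E → Q ≤ E → CycPs p H (E ⊓ M)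

/-- the homomorphism to `N(R) / R` -/
def qhom {A : Type u} [Group A] {P R : Subgroup A}
    (hP : P ≤ Subgroup.normalizer (R : Set A)) : ↥P →* NQ R where
  toFun := fun x => qm R x (hP x.2)
  map_one' := qm_eq_one_iff.2 R.one_mem
  map_mul' := fun _ _ => rfl

theorem qhom_range {A : Type u} [Group A] {P R : Subgroup A}
    (hP : P ≤ Subgroup.normalizer (R : Set A)) : (qhom hP).range = sec P R := by
  ext w
  constructor
  · rintro ⟨x, rfl⟩
    exact qm_mem_sec _ x.2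
  · intro hw
    obtain ⟨x, hx, hx', rfl⟩ := mem_sec.1 hw
    exact ⟨⟨x, hx⟩, rfl⟩

theorem qhom_ker {A : Type u} [Group A] {P R : Subgroup A}
    (hP : P ≤ Subgroup.normalizer (R : Set A)) (x : ↥P) : x ∈ (qhom hP).ker ↔ (x : A) ∈ R := by
  rw [MonoidHom.mem_ker]
  exact qm_eq_one_iff

/-- `(E ∩ M) / (E ∩ M ∩ S)` is cyclic: passing to a smaller group -/
theorem CycPs.mono {A : Type u} [Group A] {H E H' E' : Subgroup A} (h : CycPs p H E)
    (hEH : E ≤ H) (hH : H' ≤ H) (hE : E' ≤ E) (hEH' : E' ≤ H') : CycPs p H' E' := by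
  obtain ⟨S, hSH, hn, hS, hc⟩ := h
  have hn' : H' ≤ Subgroup.normalizer ((S ⊓ H' : Subgroup A) : Set A) := by
    intro x hx
    have h1 : cg x S = S := cg_eq_self_iff.2 (hn (hH hx))
    have h2 : cg x H' = H' := cg_of_mem hx
    rw [← cg_eq_self_iff, cg_inf, h1, h2]
  refine ⟨S ⊓ H', inf_le_right, hn', hS.of_le inf_le_left, ?_⟩
  rw [← qhom_range (hEH'.trans hn')]
  refine cyc_of_ker (α := (qhom (hEH.trans hn)).comp (Subgroup.inclusion hE)) ?_ ?_
  · intro x hx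
    rw [qhom_ker]
    have h1 : Subgroup.inclusion hE x ∈ (qhom (hEH.trans hn)).ker := hx
    rw [qhom_ker] at h1
    exact Subgroup.mem_inf.2 ⟨h1, hEH' x.2⟩
  · refine cyc_of_le ?_ hc
    rw [← qhom_range (hEH.trans hn)]
    rintro _ ⟨x, rfl⟩
    exact ⟨Subgroup.inclusion hE x, rfl⟩

theorem CycPs.of_psolv {A : Type u} [Group A] {H E : Subgroup A} (h : PSolv p ↥H)
    (hEH : E ≤ H) : CycPs p H E := by
  refine ⟨H, le_rfl, Subgroup.le_normalizer, h, ?_⟩
  rw [← qhom_range (hEH.trans Subgroup.le_normalizer)]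
  have h1 : (qhom (R := H) (hEH.trans Subgroup.le_normalizer)).range = ⊥ := by
    rw [eq_bot_iff]
    rintro _ ⟨x, rfl⟩
    exact Subgroup.mem_bot.2 (qm_eq_one_iff.2 (hEH x.2))
  rw [h1]
  exact isCyclic_of_subsingleton

/-- `CycPs` for a cyclic group -/
theorem CycPs.of_cyclic {A : Type u} [Group A] {H E : Subgroup A} (h : IsCyclic ↥E)
    (hEH : E ≤ H) : CycPs p H E := by
  have hn : H ≤ Subgroup.normalizer ((⊥ : Subgroup A) : Set A) := by
    rw [Subgroup.normalizer_eq_top]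
    exact le_top
  have hb : PSolv p ↥(⊥ : Subgroup A) :=
    ⟨0, fun _ => ⊥, rfl, Subsingleton.elim _ _, fun _ => inferInstance,
      fun i hi => absurd hi (Nat.not_lt_zero i)⟩
  refine ⟨⊥, bot_le, hn, hb, ?_⟩
  rw [← qhom_range (hEH.trans hn)]
  exact isCyclic_of_surjective _ (MonoidHom.rangeRestrict_surjective _)

/-- the trivial series -/
theorem hyp3_self [Fact p.Prime] {A : Type u} [Group A] (K : Subgroup A) : Hyp3 p K K K K :=
  HypExt.hyp3 ⟨le_rfl, Subgroup.le_normalizer, ⟨le_rfl, Subgroup.le_normalizer,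
    ⟨1, Subgroup.one_mem _, by rw [Subgroup.zpowers_one_eq_bot, sup_bot_eq]⟩, by
      rw [Subgroup.relIndex_self]
      intro h
      exact (Fact.out : p.Prime).one_lt.ne' (Nat.dvd_one.1 h)⟩,
    fun x hx => ⟨0, by rw [pow_zero, pow_one]; exact hx⟩⟩

theorem LocS.of_self [Fact p.Prime] {A : Type u} [Group A] {G : Subgroup A}
    {e : MonoidAlgebra k A} {Q : Subgroup A}
    (h : ∀ E, IsDefectGroup p ⊤ e E → Q ≤ E →
      CycPs p (G ⊓ Subgroup.normalizer (Q : Set A))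
        (E ⊓ (G ⊓ Subgroup.normalizer (Q : Set A)))) : LocS p G e Q :=
  ⟨_, _, _, hyp3_self _, fun _ hx hxQ _ => Subgroup.mem_inf.2
    ⟨hx, Subgroup.centralizer_le_normalizer _ hxQ⟩, h⟩

/-- the weight equality for the chain stabilizers -/
theorem weq_locS [Fact p.Prime] [CharP k p] [IsAlgClosed k]
    {A : Type u} [Group A] [Fintype A] {G : Subgroup A} {e c : MonoidAlgebra k A}
    {Q K : Subgroup A} (hQp : IsPGroup p Q)
    (hCK : G ⊓ Subgroup.centralizer (Q : Set A) ≤ K)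
    (hKQ : K ≤ G ⊓ Subgroup.normalizer (Q : Set A)) (hsub : ∀ x, c.coeff x ≠ 0 → e.coeff x ≠ 0)
    (hcen : ∀ x, c.coeff x ≠ 0 → x ∈ Subgroup.centralizer (Q : Set A))
    (hcC : SuppIn (G ⊓ Subgroup.centralizer (Q : Set A)) c)
    (hcN : InvBy (Subgroup.normalizer (Q : Set A)) c)
    (hcc : c * c = c) (hU : LocS p G e Q) : WEq p K c := by
  classical
  obtain ⟨M, N, H, hMN, hreg, hcyc⟩ := hU
  have hcinv : InvBy K c := hcN.mono (hKQ.trans inf_le_right)
  -- the support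
  have hCn : G ⊓ Subgroup.centralizer (Q : Set A) ≤
      Subgroup.normalizer ((Opc p G Q : Subgroup A) : Set A) :=
    opc_norm (inf_le_left.trans Subgroup.le_normalizer)
      (inf_le_right.trans (Subgroup.centralizer_le_normalizer _))
  have hcO : SuppIn (Opc p G Q) c :=
    supp_in_of_pQuotient (p := p) (opc_le G Q) hCn (fun x hx => opc_pow hx)
      (mem_fixAlg.2 ⟨hcC, hcinv.mono hCK⟩) hcc
  have hOM : Opc p G Q ≤ M ⊓ K := by
    refine le_inf ?_ ((opc_le G Q).trans hCK)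
    rw [Opc, Subgroup.closure_le]
    rintro x ⟨h1, h2, h3⟩
    exact hreg x h1 h2 h3
  have hcM : SuppIn (M ⊓ K) c := hcO.mono hOM
  have hh := hMN.sub hKQ
  refine weq_star3C base_modPs hh hcM hcinv hcc ?_
  intro P hP hPp hbr
  -- the part in `M`
  set P₁ : Subgroup A := P.map (H ⊓ K).subtype with hP₁
  have hP₁M : P₁ ≤ M ⊓ K := by
    rintro _ ⟨x, hx, rfl⟩
    exact Subgroup.mem_subgroupOf.1 (hP hx)
  have hP₁p : IsPGroup p P₁ := hPp.map _
  have hP₁Q : P₁ ≤ Subgroup.normalizer (Q : Set A) :=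
    (hP₁M.trans inf_le_right).trans (hKQ.trans inf_le_right)
  have hbr' : HasBr (P₁ ⊔ Q) c := by
    obtain ⟨y, hy, hy0⟩ : HasBr P₁ c :=
      hasBr_map (H ⊓ K).subtype (fun y hy => by rwa [coeff_dn] at hy) hbr
    refine ⟨y, ?_, hy0⟩
    have h1 : ∀ T : Subgroup A, y ∈ Subgroup.centralizer (T : Set A) ↔
        T ≤ Subgroup.centralizer ({y} : Set A) := by
      intro T
      rw [Subgroup.mem_centralizer_iff]
      constructor
      · intro h t ht
        rw [Subgroup.mem_centralizer_iff]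
        intro z hz
        rw [Set.mem_singleton_iff] at hz
        rw [hz]
        exact (h t ht).symm
      · intro h t ht
        exact (Subgroup.mem_centralizer_iff.1 (h ht) y rfl).symm
    rw [h1]
    exact sup_le ((h1 _).1 hy) ((h1 _).1 (hcen y hy0))
  have hsup : IsPGroup p ↥(P₁ ⊔ Q) := hP₁p.to_sup_of_normal_right' hQp hP₁Q
  obtain ⟨E, hE, hle⟩ := exists_defect_ge (p := p) hsup (hasBr_sub hsub hbr')
  have h1 := hcyc E hE (le_sup_right.trans hle)
  have hMH : M ≤ H := hMN.hyp.CN.trans hMN.hyp.ext.NH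
  have h2 : CycPs p (H ⊓ K) P₁ := h1.mono (inf_le_right.trans hMH) inf_le_left
    (le_inf (le_sup_left.trans hle) (hP₁M.trans inf_le_left))
    (hP₁M.trans (inf_le_inf_right K hMH))
  obtain ⟨S, hSH, hSn, hS, hc⟩ := h2
  have hSn' : (S.subgroupOf (H ⊓ K)).Normal := by
    refine ⟨fun n hn' g => ?_⟩
    rw [Subgroup.mem_subgroupOf] at hn' ⊢
    exact (Subgroup.mem_normalizer_iff.1 (hSn g.2) _).1 hn'
  refine ⟨S.subgroupOf (H ⊓ K), hSn', hS.of_equiv (Subgroup.subgroupOfEquivOfLe hSH).symm, ?_⟩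
  have hP₁H : P₁ ≤ H ⊓ K := hP₁M.trans (inf_le_inf_right K hMH)
  have hP₁n : P₁ ≤ Subgroup.normalizer (S : Set A) := hP₁H.trans hSn
  rw [← qhom_range hP₁n] at hc
  let ι : ↥P →* ↥P₁ := (H ⊓ K).subtype.subgroupMap P
  let β : ↥P →* ↥(H ⊓ K) ⧸ S.subgroupOf (H ⊓ K) :=
    (QuotientGroup.mk' (S.subgroupOf (H ⊓ K))).comp P.subtype
  have hβ : P.map (QuotientGroup.mk' (S.subgroupOf (H ⊓ K))) = β.range := by
    ext w
    constructor
    · rintro ⟨x, hx, rfl⟩
      exact ⟨⟨x, hx⟩, rfl⟩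
    · rintro ⟨x, rfl⟩
      exact ⟨x.1, x.2, rfl⟩
  rw [hβ]
  refine cyc_of_ker (α := (qhom hP₁n).comp ι) ?_ ?_
  · intro x hx
    have h3 : ι x ∈ (qhom hP₁n).ker := hx
    rw [qhom_ker] at h3
    rw [MonoidHom.mem_ker]
    have h4 : (x : ↥(H ⊓ K)) ∈ S.subgroupOf (H ⊓ K) := Subgroup.mem_subgroupOf.2 h3
    exact (QuotientGroup.eq_one_iff (N := S.subgroupOf (H ⊓ K)) _).2 h4
  · refine cyc_of_le ?_ hc
    rintro _ ⟨x, rfl⟩
    exact ⟨ι x, rfl⟩

/-- **General form** -/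
theorem navarro_S_rel [Fact p.Prime] [CharP k p] [IsAlgClosed k]
    {A : Type u} [Group A] [Fintype A] {G H : Subgroup A} (hn : G.Normal) (hGH : G ≤ H)
    (hp : ∀ x : A, ∃ n : ℕ, x ^ p ^ n ∈ G) {e : MonoidAlgebra k A}
    (he : IsBlock G e) (hinv : InvBy ⊤ e)
    (hfix : ∀ Q : Subgroup A, Q ≤ H → IsPGroup p Q → G ⊔ Q = H → Radical p H Q →
      (∃ E, IsDefectGroup p ⊤ e E ∧ Q ≤ E) → LocS p G e Q) :
    NavarroEq p G H e := by
  apply navarro_loc_rad hn hGH hp he hinv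
  intro Q hQH hQp hGQ hrad hQE K hCK hKN c hsub hcen hcC hcinv hcc
  exact weq_locS hQp hCK hKN hsub hcen hcC hcinv hcc (hfix Q hQH hQp hGQ hrad hQE)

end Pool.Agent.Lib.P0c8ca5.Ps
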