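import Mathlib
import Pool.Agent.Lib.P0c8ca5T.LocS
import Pool.Agent.Lib.P0c8ca5S.LocV

/-!
# Local conditions modulo a p-solvable normal subgroup `V` of the ambient group
-/

namespace Pool.Agent.Lib.P0c8ca5.Ps

open MonoidAlgebra
open Pool.Agent.Lib.P0c8ca5.Cy

universe u v

variable {p : ℕ} {k : Type v} [Field k]

theorem comap_norm {A B : Type u} [Group A] [Group B] (π : A →* B) {M H : Subgroup B}
    (h : H ≤ Subgroup.normalizer (M : Set B)) :
    H.comap π ≤ Subgroup.normalizer ((M.comap π : Subgroup A) : Set A) := by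
  intro x hx
  rw [Subgroup.mem_normalizer_iff]
  intro y
  rw [Subgroup.mem_comap, Subgroup.mem_comap, map_mul, map_mul, map_inv]
  exact Subgroup.mem_normalizer_iff.1 (h hx) (π y)

/-- the preimage of a series -/
theorem hyp3_comap {A B : Type u} [Group A] [Group B] (π : A →* B)
    (hπ : Function.Surjective π) {M N H K : Subgroup B} (h : Hyp3 p M N H K) :
    Hyp3 p (M.comap π) (N.comap π) (H.comap π) (K.comap π) := by
  refine ⟨⟨Subgroup.comap_mono h.hyp.CN, comap_norm π h.hyp.hC,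
    ⟨Subgroup.comap_mono h.hyp.ext.NH, comap_norm π h.hyp.ext.hN, ?_, ?_⟩, ?_⟩,
    Subgroup.comap_mono h.HK, comap_norm π h.hH, ?_⟩
  · obtain ⟨t, ht, hNt⟩ := h.hyp.ext.cyc
    obtain ⟨s, rfl⟩ := hπ t
    refine ⟨s, ht, le_antisymm (sup_le (Subgroup.comap_mono h.hyp.ext.NH) (by
      rw [Subgroup.zpowers_le]
      exact ht)) ?_⟩
    intro x hx
    have h1 : π x ∈ N ⊔ Subgroup.zpowers (π s) := by
      rw [hNt]
      exact hx
    have h2 : Subgroup.zpowers (π s) ≤ Subgroup.normalizer (N : Set B) := by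
      rw [Subgroup.zpowers_le]
      exact h.hyp.ext.hN ht
    obtain ⟨n, hn, z, hz, hnz⟩ := (mem_sup_norm h2).1 h1
    obtain ⟨i, rfl⟩ := Subgroup.mem_zpowers_iff.1 hz
    have h3 : x * (s ^ i)⁻¹ ∈ N.comap π := by
      rw [Subgroup.mem_comap, map_mul, map_inv, map_zpow, ← hnz, mul_inv_cancel_right]
      exact hn
    have h4 : x = x * (s ^ i)⁻¹ * s ^ i := by group
    rw [h4]
    exact Subgroup.mul_mem _ (Subgroup.mem_sup_left h3)
      (Subgroup.mem_sup_right (Subgroup.zpow_mem_zpowers s i))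
  · rw [Subgroup.relIndex_comap, Subgroup.map_comap_eq_self_of_surjective hπ]
    exact h.hyp.ext.idx
  · intro x hx
    obtain ⟨n, hn⟩ := h.hyp.pgrp (π x) hx
    exact ⟨n, by rw [Subgroup.mem_comap, map_pow]; exact hn⟩
  · intro x hx
    obtain ⟨n, hn⟩ := h.pgrp (π x) hx
    exact ⟨n, by rw [Subgroup.mem_comap, map_pow]; exact hn⟩

/-- `M = N_G(Q)`, the condition modulo `V` -/
theorem locS_of_quot {A : Type u} [Group A] [Finite A] [Fact p.Prime] {G : Subgroup A}
    [hG : G.Normal] {e : MonoidAlgebra k A} {Q V : Subgroup A} [hV : V.Normal] (hVG : V ≤ G)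
    (hVs : PSolv p ↥V) (hQp : IsPGroup p Q)
    (h : ∀ E, IsDefectGroup p ⊤ e E → Q ≤ E →
      IsCyclic ↥(sec (E.map (QuotientGroup.mk' V) ⊓ (G.map (QuotientGroup.mk' V) ⊓
        Subgroup.normalizer (Q.map (QuotientGroup.mk' V) : Set (A ⧸ V))))
          (Q.map (QuotientGroup.mk' V)))) : LocS p G e Q := by
  apply LocS.of_self
  intro E hE hQE
  set π := QuotientGroup.mk' V with hπ
  have hc := h E hE hQE
  set S : Subgroup A := (Q ⊓ G) ⊔ (V ⊓ Subgroup.normalizer (Q : Set A)) with hS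
  set T : Subgroup A := G ⊓ Subgroup.normalizer (Q : Set A) with hT
  have hST : S ≤ T := sup_le (le_inf inf_le_right (inf_le_left.trans Subgroup.le_normalizer))
    (inf_le_inf_right _ hVG)
  have hcgT : ∀ x ∈ Subgroup.normalizer (Q : Set A), cg x S = S := by
    intro x hx
    have h1 : cg x Q = Q := cg_eq_self_iff.2 hx
    have h2 : cg x V = V := cg_normal x V
    have h3 : cg x (Subgroup.normalizer (Q : Set A)) = Subgroup.normalizer (Q : Set A) :=
      cg_of_mem hx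
    have h4 : cg x G = G := cg_normal x G
    rw [hS, cg_sup, cg_inf, cg_inf, h1, h2, h3, h4]
  have hTn : T ≤ Subgroup.normalizer (S : Set A) := by
    intro x hx
    rw [← cg_eq_self_iff]
    exact hcgT x hx.2
  refine ⟨S, hST, hTn, ?_, ?_⟩
  · refine psolv_sup (hQp.to_le inf_le_left) (hVs.of_le inf_le_left) ?_
    intro x hx
    have h2 : cg x V = V := cg_normal x V
    have h3 : cg x (Subgroup.normalizer (Q : Set A)) = Subgroup.normalizer (Q : Set A) :=
      cg_of_mem (Subgroup.le_normalizer hx.1)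
    rw [← cg_eq_self_iff, cg_inf, h2, h3]
  · have hπn : ∀ x ∈ Subgroup.normalizer (Q : Set A),
        π x ∈ Subgroup.normalizer (Q.map π : Set (A ⧸ V)) := by
      intro x hx
      exact Subgroup.le_normalizer_map π ⟨x, hx, rfl⟩
    have hPQ : E ⊓ T ≤ Subgroup.normalizer (Q : Set A) := inf_le_right.trans inf_le_right
    let f : ↥(E ⊓ T) →* ↥(sec (E.map π ⊓ (G.map π ⊓
        Subgroup.normalizer (Q.map π : Set (A ⧸ V)))) (Q.map π)) :=
      { toFun := fun x => ⟨qm (Q.map π) (π x) (hπn x (hPQ x.2)), qm_mem_sec _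
          (Subgroup.mem_inf.2 ⟨⟨x, x.2.1, rfl⟩, Subgroup.mem_inf.2
            ⟨⟨x, x.2.2.1, rfl⟩, hπn x (hPQ x.2)⟩⟩)⟩
        map_one' := Subtype.ext (qm_eq_one_iff.2 (by
          change π 1 ∈ _
          rw [map_one]
          exact Subgroup.one_mem _))
        map_mul' := fun x y => Subtype.ext rfl }
    refine isCyclic_sec_of_hom hc f ?_ (inf_le_right.trans hTn)
    intro x hx
    have h1 : qm (Q.map π) (π x) (hπn x (hPQ x.2)) = 1 := congrArg Subtype.val hx
    rw [qm_eq_one_iff] at h1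
    obtain ⟨q, hq, hqx⟩ := h1
    have h2 : q⁻¹ * (x : A) ∈ V := by
      rw [← QuotientGroup.eq]
      exact hqx
    have h3 : q⁻¹ * (x : A) ∈ Subgroup.normalizer (Q : Set A) :=
      Subgroup.mul_mem _ (Subgroup.inv_mem _ (Subgroup.le_normalizer hq)) (hPQ x.2)
    have h4 : (x : A) = q * (q⁻¹ * x) := by group
    have h5 : q ∈ G := by
      have h6 := G.mul_mem x.2.2.1 (G.inv_mem (hVG h2))
      have e1 : (x : A) * (q⁻¹ * (x : A))⁻¹ = q := by group
      rwa [e1] at h6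
    rw [h4]
    exact S.mul_mem ((le_sup_left : Q ⊓ G ≤ S) ⟨hq, h5⟩)
      ((le_sup_right : V ⊓ Subgroup.normalizer (Q : Set A) ≤ S) ⟨h2, h3⟩)

/-- a series modulo `V` -/
theorem locS_of_quotU {A : Type u} [Group A] [Finite A] [Fact p.Prime] {G : Subgroup A}
    {e : MonoidAlgebra k A} {Q V : Subgroup A} [hV : V.Normal]
    (hVs : PSolv p ↥V) {M N H : Subgroup (A ⧸ V)}
    (hh : Hyp3 p M N H (G.map (QuotientGroup.mk' V) ⊓
      Subgroup.normalizer (Q.map (QuotientGroup.mk' V) : Set (A ⧸ V))))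
    (hreg : ∀ x ∈ G.map (QuotientGroup.mk' V),
      x ∈ Subgroup.centralizer (Q.map (QuotientGroup.mk' V) : Set (A ⧸ V)) →
      ¬ p ∣ orderOf x → x ∈ M)
    (hcyc : ∀ E, IsDefectGroup p ⊤ e E → Q ≤ E →
      IsCyclic ↥(E.map (QuotientGroup.mk' V) ⊓ M) ∨
        CycPs p (G ⊓ Subgroup.normalizer (Q : Set A))
          (E ⊓ (G ⊓ Subgroup.normalizer (Q : Set A)))) : LocS p G e Q := by
  set π := QuotientGroup.mk' V with hπ
  have hπs : Function.Surjective π := QuotientGroup.mk'_surjective V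
  set T : Subgroup A := G ⊓ Subgroup.normalizer (Q : Set A) with hT
  have hle : T ≤ (G.map π ⊓ Subgroup.normalizer (Q.map π : Set (A ⧸ V))).comap π := by
    intro x hx
    exact Subgroup.mem_inf.2 ⟨⟨x, hx.1, rfl⟩, Subgroup.le_normalizer_map π ⟨x, hx.2, rfl⟩⟩
  have h1 := (hyp3_comap π hπs hh).sub hle
  have hVH : ∀ L : Subgroup (A ⧸ V), V ≤ L.comap π := by
    intro L x hx
    rw [Subgroup.mem_comap]
    have h2 : π x = 1 := (QuotientGroup.eq_one_iff (N := V) x).2 hx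
    rw [h2]
    exact L.one_mem
  refine ⟨_, _, _, h1, ?_, ?_⟩
  · intro x hx hxQ hxp
    refine Subgroup.mem_inf.2 ⟨?_, Subgroup.mem_inf.2
      ⟨hx, Subgroup.centralizer_le_normalizer _ hxQ⟩⟩
    rw [Subgroup.mem_comap]
    apply hreg _ ⟨x, hx, rfl⟩
    · rw [Subgroup.mem_centralizer_iff] at hxQ ⊢
      rintro _ ⟨q, hq, rfl⟩
      rw [← map_mul, hxQ q hq, map_mul]
    · intro h3
      exact hxp (h3.trans (orderOf_map_dvd π x))
  · intro E hE hQE
    rcases hcyc E hE hQE with h2 | h2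
    · have hn : H.comap π ⊓ T ≤ Subgroup.normalizer ((V ⊓ T : Subgroup A) : Set A) := by
        intro x hx
        have h3 : cg x V = V := cg_normal x V
        have h4 : cg x T = T := cg_of_mem hx.2
        rw [← cg_eq_self_iff, cg_inf, h3, h4]
      refine ⟨V ⊓ T, inf_le_inf_right _ (hVH H), hn, hVs.of_le inf_le_left, ?_⟩
      have hMH : M.comap π ⊓ T ≤ H.comap π ⊓ T :=
        h1.hyp.CN.trans h1.hyp.ext.NH
      let f : ↥(E ⊓ (M.comap π ⊓ T)) →* ↥(E.map π ⊓ M) :=
        { toFun := fun x => ⟨π x, Subgroup.mem_inf.2 ⟨⟨x, x.2.1, rfl⟩, x.2.2.1⟩⟩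
          map_one' := Subtype.ext (map_one π)
          map_mul' := fun x y => Subtype.ext (map_mul π x.1 y.1) }
      refine isCyclic_sec_of_hom h2 f ?_ ((inf_le_right.trans hMH).trans hn)
      intro x hx
      have h3 : π x = 1 := congrArg Subtype.val hx
      exact Subgroup.mem_inf.2 ⟨(QuotientGroup.eq_one_iff (N := V) _).1 h3, x.2.2.2⟩
    · exact h2.mono inf_le_right inf_le_right (inf_le_inf_left _ inf_le_right)
        (inf_le_right.trans (h1.hyp.CN.trans h1.hyp.ext.NH))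

/-! ### conjugation -/

theorem Radical.cg {A : Type u} [Group A] {H Q : Subgroup A} (h : Radical p H Q) (x : A) :
    Radical p (cg x H) (cg x Q) := by
  have hN : ∀ (y : A) (L : Subgroup A),
      Subgroup.normalizer ((Pool.Agent.Lib.P0c8ca5.cg y L : Subgroup A) : Set A)
        = Pool.Agent.Lib.P0c8ca5.cg y (Subgroup.normalizer (L : Set A)) := by
    intro y L
    ext z
    rw [mem_cg, ← cg_eq_self_iff, ← cg_eq_self_iff, cg_cg]
    have e1 : Pool.Agent.Lib.P0c8ca5.cg (y⁻¹ * z * y) L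
        = Pool.Agent.Lib.P0c8ca5.cg y⁻¹ (Pool.Agent.Lib.P0c8ca5.cg (z * y) L) := by
      rw [cg_cg, mul_assoc]
    rw [e1]
    constructor
    · intro h1
      rw [h1, cg_cg, inv_mul_cancel, cg_one]
    · intro h1
      have h2 := congrArg (Pool.Agent.Lib.P0c8ca5.cg y) h1
      rwa [cg_cg, mul_inv_cancel, cg_one] at h2
  intro R hR hRN hNR
  have h1 : Pool.Agent.Lib.P0c8ca5.cg x⁻¹ R ≤ Q := by
    apply h
    · exact hR.map _
    · have h2 := cg_le_cg (g := x⁻¹) hRN
      rwa [cg_inf, hN, cg_cg, cg_cg, inv_mul_cancel, cg_one, cg_one] at h2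
    · have h2 := cg_le_cg (g := x⁻¹) hNR
      rwa [cg_inf, hN, cg_cg, cg_cg, inv_mul_cancel, cg_one, cg_one, ← hN] at h2
  have h3 := cg_le_cg (g := x) h1
  rwa [cg_cg, mul_inv_cancel, cg_one] at h3

theorem CycPs.cg {A : Type u} [Group A] {H E : Subgroup A} (h : CycPs p H E) (hEH : E ≤ H)
    (x : A) : CycPs p (cg x H) (cg x E) := by
  obtain ⟨S, hSH, hn, hS, hc⟩ := h
  have hn' : Pool.Agent.Lib.P0c8ca5.cg x H ≤
      Subgroup.normalizer ((Pool.Agent.Lib.P0c8ca5.cg x S : Subgroup A) : Set A) := by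
    intro y hy
    rw [mem_cg] at hy
    have h1 := cg_eq_self_iff.2 (hn hy)
    rw [← cg_eq_self_iff, cg_cg]
    have e1 : y * x = x * (x⁻¹ * y * x) := by group
    rw [e1, ← cg_cg, h1]
  refine ⟨Pool.Agent.Lib.P0c8ca5.cg x S, cg_le_cg hSH, hn', hS.of_equiv
    (Subgroup.equivMapOfInjective S (MulAut.conj x).toMonoidHom (MulAut.conj x).injective), ?_⟩
  have hEn : E ≤ Subgroup.normalizer (S : Set A) := hEH.trans hn
  let ι : ↥(Pool.Agent.Lib.P0c8ca5.cg x E) →* ↥E :=
    { toFun := fun y => ⟨x⁻¹ * y * x, mem_cg.1 y.2⟩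
      map_one' := Subtype.ext (by
        change x⁻¹ * 1 * x = 1
        group)
      map_mul' := fun y z => Subtype.ext (by
        change x⁻¹ * (y.1 * z.1) * x = x⁻¹ * y.1 * x * (x⁻¹ * z.1 * x)
        group) }
  rw [← qhom_range ((cg_le_cg hEH).trans hn')]
  refine cyc_of_ker (α := (qhom hEn).comp ι) ?_ ?_
  · intro y hy
    have h1 : ι y ∈ (qhom hEn).ker := hy
    rw [qhom_ker] at h1 ⊢
    exact mem_cg.2 h1
  · refine cyc_of_le ?_ hc
    rw [← qhom_range hEn]
    rintro _ ⟨y, rfl⟩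
    exact ⟨ι y, rfl⟩

end Pool.Agent.Lib.P0c8ca5.Ps
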