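import Mathlib
import Pool.Agent.Lib.P0c8ca5T.LocW

/-!
# Navarro's equality from one defect group, modulo a p-solvable normal subgroup
-/

namespace Pool.Agent.Lib.P0c8ca5.Ps

open MonoidAlgebra
open Pool.Agent.Lib.P0c8ca5.Cy

universe u v

variable {p : ℕ} {k : Type v} [Field k]

/-- all subgroups of `E V / V` can be generated by `d(A / G) + 1` elements -/
theorem navarro_rankW [Fact p.Prime] [CharP k p] [IsAlgClosed k]
    {A : Type u} [Group A] [Fintype A] {G : Subgroup A} [hn : G.Normal]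
    (hG : IsPGroup p (A ⧸ G)) (hp : ∀ x : A, ∃ n : ℕ, x ^ p ^ n ∈ G) {e : MonoidAlgebra k A}
    (he : IsBlock G e) (hinv : InvBy ⊤ e) {E : Subgroup A} (hE : IsDefectGroup p ⊤ e E)
    {V : Subgroup A} [hV : V.Normal] (hVs : PSolv p ↥V) (hVG : V ≤ G)
    (hr : ∀ N : Subgroup A, N ≤ E →
      Group.rank ↥(N.map (QuotientGroup.mk' V)) ≤ Group.rank (A ⧸ G) + 1) :
    NavarroEq p G ⊤ e := by
  have hnG : (⊤ : Subgroup A) ≤ Subgroup.normalizer (G : Set A) := fun x _ =>
    mem_norm_of_normal G x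
  have heT : IsBlock (⊤ : Subgroup A) e := isBlock_up' le_top hnG (fun x _ => hp x) he hinv
  set π := QuotientGroup.mk' V with hπ
  have hnm : (G.map π).Normal := hn.map π (QuotientGroup.mk'_surjective V)
  let ε : (A ⧸ V) ⧸ G.map π ≃* A ⧸ G := QuotientGroup.quotientQuotientEquivQuotient V G hVG
  have hGV : IsPGroup p ((A ⧸ V) ⧸ G.map π) := hG.of_equiv ε.symm
  have hrk : Group.rank ((A ⧸ V) ⧸ G.map π) = Group.rank (A ⧸ G) := Group.rank_congr ε
  apply navarro_S_rel hn le_top hp he hinv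
  rintro Q - hQp hGQ - -
  refine locS_of_quot hVG hVs hQp (fun E' hE' hQE' => ?_)
  obtain ⟨x, rfl⟩ := Rk.defect_conj heT hE hE'
  refine isCyclic_sec_mono inf_le_left ?_
  refine isCyclic_sec_of_rank hGV (hE'.isPGroup.map π) ?_ (Subgroup.map_mono hQE') ?_
  · intro N' hN'
    rw [hrk]
    exact rank_images π hr x N' hN'
  · rw [← Subgroup.map_sup, hGQ]
    exact Subgroup.map_top_of_surjective π (QuotientGroup.mk'_surjective V)

/-- all subgroups of `E V / V` can be generated by two elements, `H > G` -/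
theorem navarro_gtW [Fact p.Prime] [CharP k p] [IsAlgClosed k]
    {A : Type u} [Group A] [Fintype A] {G : Subgroup A} [hn : G.Normal]
    (hp : ∀ x : A, ∃ n : ℕ, x ^ p ^ n ∈ G) {e : MonoidAlgebra k A}
    (he : IsBlock G e) (hinv : InvBy ⊤ e) {E : Subgroup A} (hE : IsDefectGroup p ⊤ e E)
    {V : Subgroup A} [hV : V.Normal] (hVs : PSolv p ↥V) (hVG : V ≤ G)
    (hr : ∀ N : Subgroup A, N ≤ E → Group.rank ↥(N.map (QuotientGroup.mk' V)) ≤ 2)
    {H : Subgroup A} (hGH : G < H) : NavarroEq p G H e := by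
  have hnG : (⊤ : Subgroup A) ≤ Subgroup.normalizer (G : Set A) := fun x _ =>
    mem_norm_of_normal G x
  have heT : IsBlock (⊤ : Subgroup A) e := isBlock_up' le_top hnG (fun x _ => hp x) he hinv
  set π := QuotientGroup.mk' V with hπ
  have hnm : (G.map π).Normal := hn.map π (QuotientGroup.mk'_surjective V)
  apply navarro_S_rel hn hGH.le hp he hinv
  rintro Q - hQp hGQ - -
  have hQG : ¬ Q.map π ≤ G.map π := by
    intro h
    have h1 : Q ≤ G := by
      intro x hx
      obtain ⟨g, hg, hgx⟩ := h ⟨x, hx, rfl⟩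
      have h2 : g⁻¹ * x ∈ V := by
        rw [← QuotientGroup.eq]
        exact hgx
      have h3 := G.mul_mem hg (hVG h2)
      rwa [mul_inv_cancel_left] at h3
    rw [sup_eq_left.2 h1] at hGQ
    exact hGH.ne hGQ
  refine locS_of_quot hVG hVs hQp (fun E' hE' hQE' => ?_)
  obtain ⟨x, rfl⟩ := Rk.defect_conj heT hE hE'
  exact isCyclic_sec_of_rank_two (hE'.isPGroup.map π) (rank_images π hr x)
    (Subgroup.map_mono hQE') hQG

theorem inf_bot_of_not_dvd [Fact p.Prime] {A : Type u} [Group A] [Finite A] (P L : Subgroup A)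
    (hP : IsPGroup p P) (hL : ¬ p ∣ Nat.card L) : P ⊓ L = ⊥ := by
  have h1 : IsPGroup p ↥(P ⊓ L) := hP.to_le inf_le_left
  by_contra h
  have : Nontrivial ↥(P ⊓ L) := (Subgroup.nontrivial_iff_ne_bot _).2 h
  obtain ⟨n, hn0, hn'⟩ := h1.nontrivial_iff_card.mp this
  apply hL
  have h2 : p ∣ Nat.card ↥(P ⊓ L) := hn'.symm ▸ dvd_pow_self _ (ne_of_gt hn0)
  exact h2.trans (Subgroup.card_dvd_of_le inf_le_right)

/-- the condition on the subgroups `S ≤ Q`, modulo `V` -/
def FixV (p : ℕ) {A : Type u} [Group A] (G E V : Subgroup A) [V.Normal] (S : Subgroup A) : Prop :=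
  IsCyclic ↥((E.map (QuotientGroup.mk' V) ⊓ G.map (QuotientGroup.mk' V)) ⊓
      Subgroup.centralizer (S.map (QuotientGroup.mk' V) : Set (A ⧸ V))) ∨
    ¬ p ∣ Nat.card ↥(Opc p (G.map (QuotientGroup.mk' V)) (S.map (QuotientGroup.mk' V)))

theorem FixV.cg [Fact p.Prime] {A : Type u} [Group A] [Finite A] {G E V : Subgroup A}
    [hV : V.Normal] [hG : G.Normal] {S : Subgroup A} (h : FixV p G E V S) (x : A) :
    FixV p G (cg x E) V (cg x S) := by
  set π := QuotientGroup.mk' V with hπ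
  have hnm : (G.map π).Normal := hG.map π (QuotientGroup.mk'_surjective V)
  unfold FixV at h ⊢
  rw [← hπ] at h ⊢
  have e0 : Pool.Agent.Lib.P0c8ca5.cg (π x)⁻¹
      (Pool.Agent.Lib.P0c8ca5.cg (π x) (S.map π)) = S.map π := by
    rw [cg_cg, inv_mul_cancel, cg_one]
  rcases h with h | h
  · left
    rw [map_cg, map_cg]
    have h6 : (Pool.Agent.Lib.P0c8ca5.cg (π x) (E.map π) ⊓ G.map π) ⊓
        Subgroup.centralizer ((Pool.Agent.Lib.P0c8ca5.cg (π x) (S.map π) :
          Subgroup (A ⧸ V)) : Set (A ⧸ V))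
        = Pool.Agent.Lib.P0c8ca5.cg (π x) ((E.map π ⊓ G.map π) ⊓
          Subgroup.centralizer (S.map π : Set (A ⧸ V))) := by
      rw [cg_inf, cg_inf, cg_normal (π x) (G.map π), cent_conj (π x)
        (Pool.Agent.Lib.P0c8ca5.cg (π x) (S.map π)), e0]
    rw [h6]
    have h9 := (Subgroup.equivMapOfInjective ((E.map π ⊓ G.map π) ⊓
      Subgroup.centralizer (S.map π : Set (A ⧸ V))) (MulAut.conj (π x)).toMonoidHom
      (MulAut.conj (π x)).injective)
    exact isCyclic_of_surjective h9 h9.surjective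
  · right
    rw [map_cg]
    intro h6
    apply h
    have h7 := h6.trans (Subgroup.card_dvd_of_le (opc_conj_le hnm (π x)
      (Pool.Agent.Lib.P0c8ca5.cg (π x) (S.map π))))
    rw [e0, card_cg] at h7
    exact h7

/-- **One defect group**: for the radical subgroups `Q ≤ E` the local subgroup is cyclic modulo
p-solvable, or the fixed points are cyclic or the centralizers p-nilpotent, modulo `V`.  `Sp Q` is the
condition `G Q = H` or `Q ≤ G` fails or no condition. -/
theorem navarro_mixW [Fact p.Prime] [CharP k p] [IsAlgClosed k]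
    {A : Type u} [Group A] [Fintype A] {G : Subgroup A} [hn : G.Normal]
    (hp : ∀ x : A, ∃ n : ℕ, x ^ p ^ n ∈ G) {e : MonoidAlgebra k A}
    (he : IsBlock G e) (hinv : InvBy ⊤ e) {E : Subgroup A} (hE : IsDefectGroup p ⊤ e E)
    {V : Subgroup A} [hV : V.Normal] (hVs : PSolv p ↥V) (hVG : V ≤ G)
    {H : Subgroup A} (hGH : G ≤ H)
    (Sp : Subgroup A → Prop) (hSp : ∀ (x : A) (S : Subgroup A), Sp S → Sp (cg x S))
    (hSH : ∀ S : Subgroup A, G ⊔ S = H → Sp S)
    (hloc : ∀ Q ≤ E, Sp Q → Radical p (G ⊔ Q) Q →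
      CycPs p (G ⊓ Subgroup.normalizer (Q : Set A))
        (E ⊓ (G ⊓ Subgroup.normalizer (Q : Set A))) ∨
      ∀ S ≤ Q, G ⊔ S = G ⊔ Q → FixV p G E V S) : NavarroEq p G H e := by
  classical
  have hnG : (⊤ : Subgroup A) ≤ Subgroup.normalizer (G : Set A) := fun x _ =>
    mem_norm_of_normal G x
  have heT : IsBlock (⊤ : Subgroup A) e := isBlock_up' le_top hnG (fun x _ => hp x) he hinv
  set π := QuotientGroup.mk' V with hπ
  have hπs : Function.Surjective π := QuotientGroup.mk'_surjective V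
  have hnm : (G.map π).Normal := hn.map π hπs
  have hcc : ∀ (x : A) (S : Subgroup A), cg x (cg x⁻¹ S) = S := by
    intro x S
    rw [cg_cg, mul_inv_cancel, cg_one]
  -- all defect groups
  have h2 : ∀ (E' : Subgroup A), IsDefectGroup p ⊤ e E' → ∀ Q ≤ E', Sp Q →
      Radical p (G ⊔ Q) Q → CycPs p (G ⊓ Subgroup.normalizer (Q : Set A))
        (E' ⊓ (G ⊓ Subgroup.normalizer (Q : Set A))) ∨
      ∀ S ≤ Q, G ⊔ S = G ⊔ Q → FixV p G E' V S := by
    intro E' hE' Q hQ hQs hrad
    obtain ⟨x, rfl⟩ := Rk.defect_conj heT hE hE'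
    have h3 : cg x⁻¹ Q ≤ E := by
      have := cg_le_cg (g := x⁻¹) hQ
      rwa [cg_cg, inv_mul_cancel, cg_one] at this
    have h4 : Radical p (G ⊔ cg x⁻¹ Q) (cg x⁻¹ Q) := by
      have h5 := hrad.cg x⁻¹
      rwa [cg_sup, cg_normal] at h5
    have hN : Subgroup.normalizer (Q : Set A)
        = cg x (Subgroup.normalizer ((cg x⁻¹ Q : Subgroup A) : Set A)) := by
      ext z
      rw [mem_cg, ← cg_eq_self_iff, ← cg_eq_self_iff, cg_cg]
      have e1 : x⁻¹ * z * x * x⁻¹ = x⁻¹ * z := by group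
      have e2 : cg (x⁻¹ * z) Q = cg x⁻¹ (cg z Q) := by rw [cg_cg]
      rw [e1, e2]
      constructor
      · intro h1
        rw [h1]
      · intro h1
        have h2 := congrArg (cg x) h1
        rwa [hcc, hcc] at h2
    have hGN : G ⊓ Subgroup.normalizer (Q : Set A)
        = cg x (G ⊓ Subgroup.normalizer ((cg x⁻¹ Q : Subgroup A) : Set A)) := by
      rw [cg_inf, cg_normal, ← hN]
    rcases hloc _ h3 (hSp _ _ hQs) h4 with h5 | h5
    · left
      have h6 := h5.cg inf_le_right x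
      have e3 : cg x (E ⊓ (G ⊓ Subgroup.normalizer ((cg x⁻¹ Q : Subgroup A) : Set A)))
          = cg x E ⊓ (G ⊓ Subgroup.normalizer (Q : Set A)) := by
        rw [cg_inf, ← hGN]
      rw [e3, ← hGN] at h6
      exact h6
    · right
      intro S hS hSs
      have h8 : G ⊔ cg x⁻¹ S = G ⊔ cg x⁻¹ Q := by
        have h9 := congrArg (cg x⁻¹) hSs
        rwa [cg_sup, cg_sup, cg_normal] at h9
      have h7 := (h5 (cg x⁻¹ S) (cg_le_cg hS) h8).cg x
      rwa [hcc] at h7
  apply navarro_S_rel hn hGH hp he hinv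
  rintro Q hQH hQp hGQ hrad -
  have hrad' : Radical p (G ⊔ Q) Q := by rwa [hGQ]
  have hQs := hSH Q hGQ
  by_cases hex : ∃ E', IsDefectGroup p ⊤ e E' ∧ Q ≤ E' ∧
      ∀ S ≤ Q, G ⊔ S = G ⊔ Q → FixV p G E' V S
  · obtain ⟨E₀, hE₀, hQE₀, hfix⟩ := hex
    -- the series modulo `V`
    have hGQ' : G.map π ⊔ Q.map π = H.map π := by rw [← Subgroup.map_sup, hGQ]
    have hHn : H.map π ≤ Subgroup.normalizer (G.map π : Set (A ⧸ V)) := fun x _ =>
      mem_norm_of_normal (G.map π) x
    obtain ⟨K₀, hK₀⟩ := aut_main2 (p := p) (G := G.map π) (X := H.map π) (Q := Q.map π)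
      (K := G.map π ⊓ Subgroup.normalizer (Q.map π : Set (A ⧸ V)))
      (Subgroup.map_mono hGH) hHn ⟨Subgroup.map_mono hQH, hQp.map π, hGQ'⟩ inf_le_left
      inf_le_right (inf_le_inf_left _ (Subgroup.centralizer_le_normalizer _)) (by
        intro S' hS' hGS'
        -- lift `S'`
        set S : Subgroup A := Q ⊓ S'.comap π with hS
        have hSmap : S.map π = S' := by
          apply le_antisymm
          · rintro _ ⟨x, hx, rfl⟩
            exact hx.2
          · intro y hy
            obtain ⟨x, hx, rfl⟩ := hS' hy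
            exact ⟨x, ⟨hx, hy⟩, rfl⟩
        have hGS : G ⊔ S = H := by
          apply le_antisymm (sup_le hGH (inf_le_left.trans hQH))
          intro x hx
          have h3 : π x ∈ (G ⊔ S).map π := by
            rw [Subgroup.map_sup, hSmap, hGS']
            exact ⟨x, hx, rfl⟩
          obtain ⟨y, hy, hyx⟩ := h3
          have h4 : y⁻¹ * x ∈ V := by
            rw [← QuotientGroup.eq]
            exact hyx
          have h5 := (G ⊔ S).mul_mem hy ((le_sup_left : G ≤ G ⊔ S) (hVG h4))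
          rwa [mul_inv_cancel_left] at h5
        have h3 := hfix S inf_le_left (by rw [hGS, hGQ])
        unfold FixV at h3
        rw [← hπ, hSmap] at h3
        rcases h3 with h3 | h3
        · left
          exact cyc_of_le (inf_le_inf_right _ (inf_le_inf_right _
            (Subgroup.map_mono hQE₀))) h3
        · right
          exact inf_bot_of_not_dvd _ _ (hQp.map π) h3)
    refine locS_of_quotU hVs hK₀.hyp3 (fun x hx hxQ hxp => mem_opc hx hxQ hxp) ?_
    intro E' hE' hQE'
    rcases h2 E' hE' Q hQE' hQs hrad' with h3 | h3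
    · exact Or.inr h3
    · left
      have h4 := h3 Q le_rfl rfl
      unfold FixV at h4
      rw [← hπ] at h4
      rcases h4 with h4 | h4
      · refine cyc_of_le ?_ h4
        exact le_inf (le_inf inf_le_left (inf_le_right.trans ((opc_le _ _).trans inf_le_left)))
          (inf_le_right.trans ((opc_le _ _).trans inf_le_right))
      · rw [inf_bot_of_not_dvd _ _ (hE'.isPGroup.map π) h4]
        exact isCyclic_of_subsingleton
  · apply LocS.of_self
    intro E' hE' hQE'
    rcases h2 E' hE' Q hQE' hQs hrad' with h3 | h3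
    · exact h3
    · exact absurd ⟨E', hE', hQE', h3⟩ hex

/-- `(E ∩ G) V / V` is abelian with cyclic fixed points under `E` -/
theorem navarro_abW [Fact p.Prime] [CharP k p] [IsAlgClosed k]
    {A : Type u} [Group A] [Fintype A] {G : Subgroup A} [hn : G.Normal]
    (hp : ∀ x : A, ∃ n : ℕ, x ^ p ^ n ∈ G) {e : MonoidAlgebra k A}
    (he : IsBlock G e) (hinv : InvBy ⊤ e) {E : Subgroup A} (hE : IsDefectGroup p ⊤ e E)
    {V : Subgroup A} [hV : V.Normal] (hVs : PSolv p ↥V) (hVG : V ≤ G)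
    (hab : ∀ x ∈ E.map (QuotientGroup.mk' V) ⊓ G.map (QuotientGroup.mk' V),
      ∀ y ∈ E.map (QuotientGroup.mk' V) ⊓ G.map (QuotientGroup.mk' V), x * y = y * x)
    (hcy : IsCyclic ↥((E.map (QuotientGroup.mk' V) ⊓ G.map (QuotientGroup.mk' V)) ⊓
      Subgroup.centralizer (E.map (QuotientGroup.mk' V) : Set (A ⧸ V)))) :
    NavarroEq p G ⊤ e := by
  set π := QuotientGroup.mk' V with hπ
  have hnm : (G.map π).Normal := hn.map π (QuotientGroup.mk'_surjective V)
  refine navarro_mixW hp he hinv hE hVs hVG le_top (fun S => G ⊔ S = ⊤) ?_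
    (fun S hS => hS) ?_
  · intro x S hS
    have h3 := congrArg (cg x) hS
    rwa [cg_sup, cg_normal, cg_of_mem (Subgroup.mem_top _)] at h3
  · intro Q hQE hGQ _
    right
    intro S hSQ hGS
    left
    rw [← hπ, fix_abelian hnm hab (Subgroup.map_mono (hSQ.trans hQE)) ?_]
    · exact hcy
    · rw [← Subgroup.map_sup, hGS, hGQ]
      exact Subgroup.map_top_of_surjective π (QuotientGroup.mk'_surjective V)

end Pool.Agent.Lib.P0c8ca5.Ps
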